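import Pool.Agent.Helper79.RG.Window

/-!
# Project KS, closure lemma, ordinary part (MP_768c9c_nt)

A completely multiplicative majorant with `F p ≤ C₀ p^(s-1) / (log p)^A` at the primes `p ≥ P₀`
and `F p = 0` for `p < P₀` is small on the composite numbers of every interval `[y, y+h)`,
`h ≥ y^(1/3)`.
-/

set_option autoImplicit false

open Finset Filter Topology

namespace Pool.Agent.Helper15.KS

/-- A completely multiplicative nonnegative function supported on products of primes `≥ P0`, at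
most `C0 p^(s-1) / (log p)^A` at the prime `p`. -/
structure OrdMaj (C0 s : ℝ) (A : ℕ) (P0 : ℕ) (F : ℕ → ℝ) : Prop where
  one : F 1 = 1
  mul : ∀ a b : ℕ, 0 < a → 0 < b → F (a * b) = F a * F b
  nonneg : ∀ n : ℕ, 0 ≤ F n
  small : ∀ p : ℕ, p.Prime → p < P0 → F p = 0
  le : ∀ p : ℕ, p.Prime → F p ≤ C0 * (p : ℝ) ^ (s - 1) / (Real.log p) ^ A

variable {C0 s : ℝ} {A P0 : ℕ} {F : ℕ → ℝ}

/-- Brun-Titchmarsh -/
theorem bt : ∃ B : ℝ, 0 < B ∧ ∀ x M : ℕ, 2 ≤ M →
    (((Finset.Ico x (x + M)).filter Nat.Prime).card : ℝ) ≤ B * M / Real.log M := by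
  obtain ⟨B, hB, H⟩ := Pool.Agent.Helper79.RG.cw_le
  refine ⟨B, hB, fun x M hM => ?_⟩
  have h1 := H (x + M) M (x + M - 1) hM
  rw [Pool.Agent.Helper79.RG.cw_eq] at h1
  refine le_trans ?_ h1
  norm_cast
  apply Finset.card_le_card
  intro p hp
  rw [Finset.mem_filter, Finset.mem_Ico] at hp
  rw [Finset.mem_filter, Pool.Agent.Helper79.RG.mem_PR]
  refine ⟨⟨hp.1.2, hp.2⟩, ?_, ?_⟩
  · omega
  · omega

/-- a dichotomy: balanced divisor, or a large prime factor -/
theorem dichotomy {n z : ℕ} (hz : 2 ≤ z) (hn : z ^ 3 ≤ n) :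
    (∃ u, u ∣ n ∧ z ≤ u ∧ z ≤ n / u) ∨ (∃ p e, p.Prime ∧ n = p * e ∧ e < z) := by
  classical
  have hn0 : 0 < n := lt_of_lt_of_le (by positivity) hn
  set S := n.divisors.filter (fun u => z ≤ n / u) with hS
  have h1S : 1 ∈ S := by
    rw [hS, Finset.mem_filter, Nat.mem_divisors]
    refine ⟨⟨one_dvd _, hn0.ne'⟩, ?_⟩
    rw [Nat.div_one]
    refine le_trans ?_ hn
    calc z = z ^ 1 := (pow_one z).symm
      _ ≤ z ^ 3 := Nat.pow_le_pow_right (by omega) (by norm_num)
  have hne : S.Nonempty := ⟨1, h1S⟩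
  set u := S.max' hne with hu
  have huS : u ∈ S := S.max'_mem hne
  rw [hS, Finset.mem_filter, Nat.mem_divisors] at huS
  obtain ⟨⟨hud, -⟩, huz⟩ := huS
  by_cases hzu : z ≤ u
  · exact Or.inl ⟨u, hud, hzu, huz⟩
  · right
    rw [not_le] at hzu
    obtain ⟨v, hv⟩ := hud
    have hu0 : 0 < u := Nat.pos_of_ne_zero (by rintro h; rw [h, zero_mul] at hv; omega)
    have hdiv : n / u = v := by rw [hv]; exact Nat.mul_div_cancel_left v hu0
    rw [hdiv] at huz
    have hv1 : v ≠ 1 := by omega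
    obtain ⟨p, hp, hpv⟩ := Nat.exists_prime_and_dvd hv1
    obtain ⟨w, hw⟩ := hpv
    have hw0 : 0 < w := Nat.pos_of_ne_zero (by rintro h; rw [h, mul_zero] at hw; omega)
    -- `u p` is a larger divisor
    have hup : n = (u * p) * w := by rw [hv, hw]; ring
    have hwz : w < z := by
      by_contra hcon
      rw [not_lt] at hcon
      have hmem : u * p ∈ S := by
        rw [hS, Finset.mem_filter, Nat.mem_divisors]
        refine ⟨⟨⟨w, hup⟩, hn0.ne'⟩, ?_⟩
        rw [hup, Nat.mul_div_cancel_left w (Nat.mul_pos hu0 hp.pos)]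
        exact hcon
      have := S.le_max' _ hmem
      rw [← hu] at this
      have h2 : u * 2 ≤ u * p := Nat.mul_le_mul_left _ hp.two_le
      omega
    have hpz : z ≤ p := by
      by_contra hcon
      rw [not_le] at hcon
      have h2 : n < z ^ 3 := by
        calc n = u * p * w := hup
          _ < z * z * z := by
            apply Nat.mul_lt_mul_of_lt_of_le (Nat.mul_lt_mul'' hzu hcon) hwz.le (by omega)
          _ = z ^ 3 := by ring
      omega
    refine ⟨p, u * w, hp, by rw [hup]; ring, ?_⟩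
    by_contra hcon
    rw [not_lt] at hcon
    have hmem : u * w ∈ S := by
      rw [hS, Finset.mem_filter, Nat.mem_divisors]
      refine ⟨⟨⟨p, by rw [hup]; ring⟩, hn0.ne'⟩, ?_⟩
      have : n = u * w * p := by rw [hup]; ring
      rw [this, Nat.mul_div_cancel_left p (Nat.mul_pos hu0 hw0)]
      exact hpz
    have := S.le_max' _ hmem
    rw [← hu] at this
    omega

namespace OrdMaj

theorem zero_of_lt (h : OrdMaj C0 s A P0 F) {n : ℕ} (hn : 2 ≤ n) (hlt : n < P0) : F n = 0 := by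
  obtain ⟨p, hp, hpn⟩ := Nat.exists_prime_and_dvd (show n ≠ 1 by omega)
  have hple : p ≤ n := Nat.le_of_dvd (by omega) hpn
  obtain ⟨m, hm⟩ := hpn
  have hm0 : 0 < m := Nat.pos_of_ne_zero (by rintro h; rw [h, mul_zero] at hm; omega)
  rw [hm, h.mul p m hp.pos hm0, h.small p hp (by omega), zero_mul]

theorem pointwise (h : OrdMaj C0 s A P0 F) (hC : 0 ≤ C0) (hP : 3 ≤ P0)
    (hlog : C0 ≤ (Real.log P0 / 2) ^ A) :
    ∀ n : ℕ, 2 ≤ n → F n ≤ C0 * (n : ℝ) ^ (s - 1) / (Real.log n) ^ A := by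
  intro n
  induction n using Nat.strong_induction_on with
  | _ n ih =>
    intro hn
    have hlogn : 0 < Real.log n := Real.log_pos (by exact_mod_cast (by omega : 1 < n))
    have hRHS : 0 ≤ C0 * (n : ℝ) ^ (s - 1) / (Real.log n) ^ A := by positivity
    by_cases hp : n.Prime
    · exact h.le n hp
    · obtain ⟨p, hpp, hpn⟩ := Nat.exists_prime_and_dvd (show n ≠ 1 by omega)
      obtain ⟨m, hm⟩ := hpn
      have hm0 : 0 < m := Nat.pos_of_ne_zero (by rintro h; rw [h, mul_zero] at hm; omega)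
      have hm1 : m ≠ 1 := by
        rintro rfl
        rw [mul_one] at hm
        exact hp (hm ▸ hpp)
      have hm2 : 2 ≤ m := by omega
      have hmn : m < n := by
        rw [hm]
        calc m = 1 * m := (one_mul m).symm
          _ < p * m := Nat.mul_lt_mul_of_pos_right hpp.one_lt hm0
      have hF : F n = F p * F m := by rw [hm, h.mul p m hpp.pos hm0]
      by_cases hpP : p < P0
      · rw [hF, h.small p hpp hpP, zero_mul]
        exact hRHS
      by_cases hmP : m < P0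
      · rw [hF, h.zero_of_lt hm2 hmP, mul_zero]
        exact hRHS
      rw [not_lt] at hpP hmP
      have hP0 : (0 : ℝ) < P0 := by exact_mod_cast (by omega : 0 < P0)
      have hL : 0 < Real.log P0 := Real.log_pos (by exact_mod_cast (by omega : 1 < P0))
      have ha : Real.log P0 ≤ Real.log p := Real.log_le_log hP0 (by exact_mod_cast hpP)
      have hb : Real.log P0 ≤ Real.log m := Real.log_le_log hP0 (by exact_mod_cast hmP)
      have hp0 : (0 : ℝ) < p := by exact_mod_cast hpp.pos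
      have hm0' : (0 : ℝ) < m := by exact_mod_cast hm0
      have hn' : (n : ℝ) = p * m := by rw [hm]; push_cast; ring
      have hlogsum : Real.log n = Real.log p + Real.log m := by
        rw [hn', Real.log_mul hp0.ne' hm0'.ne']
      have h1 := h.le p hpp
      have h2 := ih m hmn hm2
      have h3 : F n ≤ (C0 * (p : ℝ) ^ (s - 1) / (Real.log p) ^ A) *
          (C0 * (m : ℝ) ^ (s - 1) / (Real.log m) ^ A) := by
        rw [hF]
        exact mul_le_mul h1 h2 (h.nonneg m) (le_trans (h.nonneg p) h1)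
      refine le_trans h3 ?_
      have h4 : (n : ℝ) ^ (s - 1) = (p : ℝ) ^ (s - 1) * (m : ℝ) ^ (s - 1) := by
        rw [hn', Real.mul_rpow hp0.le hm0'.le]
      have h5 : (C0 * (p : ℝ) ^ (s - 1) / (Real.log p) ^ A) *
          (C0 * (m : ℝ) ^ (s - 1) / (Real.log m) ^ A)
          = C0 * (n : ℝ) ^ (s - 1) * (C0 / (Real.log p * Real.log m) ^ A) := by
        rw [h4, mul_pow]
        have e1 : (Real.log p) ^ A ≠ 0 := (pow_pos (lt_of_lt_of_le hL ha) A).ne'
        have e2 : (Real.log m) ^ A ≠ 0 := (pow_pos (lt_of_lt_of_le hL hb) A).ne'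
        field_simp
      rw [h5, mul_div_assoc]
      have e3 : 0 < (n : ℝ) ^ (s - 1) := Real.rpow_pos_of_pos (by exact_mod_cast (by omega : 0 < n)) _
      rw [mul_assoc]
      refine mul_le_mul_of_nonneg_left ?_ hC
      rw [div_eq_mul_inv ((n : ℝ) ^ (s - 1)), ]
      refine mul_le_mul_of_nonneg_left ?_ e3.le
      rw [div_le_iff₀ (pow_pos (mul_pos (lt_of_lt_of_le hL ha) (lt_of_lt_of_le hL hb)) A),
        inv_mul_eq_div, le_div_iff₀ (pow_pos hlogn A)]
      calc C0 * (Real.log n) ^ A ≤ (Real.log P0 / 2) ^ A * (Real.log n) ^ A :=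
            mul_le_mul_of_nonneg_right hlog (by positivity)
        _ = (Real.log P0 / 2 * Real.log n) ^ A := (mul_pow _ _ _).symm
        _ ≤ (Real.log p * Real.log m) ^ A := by
            apply pow_le_pow_left₀ (by positivity)
            rw [hlogsum]
            nlinarith [mul_le_mul_of_nonneg_left hb (le_trans hL.le ha),
              mul_le_mul_of_nonneg_right ha (le_trans hL.le hb)]

end OrdMaj

theorem tail_sum {M : ℕ} (hM : 3 ≤ M) (N : ℕ) :
    ∑ e ∈ Finset.Ico M (M + N), 1 / ((e : ℝ) * (Real.log e) ^ 2) ≤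
      1 / Real.log ((M : ℝ) - 1) - 1 / Real.log ((M : ℝ) + N - 1) := by
  induction N with
  | zero => simp
  | succ N ih =>
    rw [← add_assoc, Finset.sum_Ico_succ_top (by omega)]
    have hM' : (3 : ℝ) ≤ M := by exact_mod_cast hM
    have hN0 : (0 : ℝ) ≤ N := Nat.cast_nonneg N
    set a : ℝ := (M : ℝ) + N with ha
    have hcast : ((M + N : ℕ) : ℝ) = a := by push_cast; rfl
    have ha3 : 3 ≤ a := by linarith
    have h1 : 0 < Real.log (a - 1) := Real.log_pos (by linarith)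
    have h2 : 0 < Real.log a := Real.log_pos (by linarith)
    have h3 : Real.log (a - 1) ≤ Real.log a := Real.log_le_log (by linarith) (by linarith)
    have h4 : 1 / a ≤ Real.log a - Real.log (a - 1) := by
      have h5 := Real.log_le_sub_one_of_pos (show 0 < (a - 1) / a by
        apply div_pos <;> linarith)
      rw [Real.log_div (by linarith) (by linarith)] at h5
      have h6 : (a - 1) / a - 1 = - (1 / a) := by field_simp; ring
      rw [h6] at h5
      linarith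
    have h7 : 1 / (a * (Real.log a) ^ 2) ≤ 1 / Real.log (a - 1) - 1 / Real.log a := by
      rw [div_sub_div _ _ h1.ne' h2.ne', div_le_div_iff₀ (by positivity) (by positivity)]
      have h8 : 1 ≤ a * (Real.log a - Real.log (a - 1)) := by
        rw [div_le_iff₀ (by linarith)] at h4
        linarith
      nlinarith [mul_le_mul_of_nonneg_right h8 (mul_pos h2 h2).le,
        mul_le_mul_of_nonneg_right h3 h2.le]
    rw [hcast]
    have h9 : (M : ℝ) + ((N + 1 : ℕ) : ℝ) - 1 = a := by push_cast; ring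
    rw [h9]
    have h10 : (M : ℝ) + N - 1 = a - 1 := rfl
    rw [h10] at ih
    linarith

theorem tail_sum_le {M : ℕ} (hM : 3 ≤ M) (T : Finset ℕ) (hT : ∀ e ∈ T, M ≤ e) :
    ∑ e ∈ T, 1 / ((e : ℝ) * (Real.log e) ^ 2) ≤ 1 / Real.log ((M : ℝ) - 1) := by
  have hM' : (3 : ℝ) ≤ M := by exact_mod_cast hM
  set N := T.sup id + 1 with hN
  have hsub : T ⊆ Finset.Ico M (M + N) := by
    intro e he
    rw [Finset.mem_Ico]
    have : e ≤ T.sup id := Finset.le_sup (f := id) he
    exact ⟨hT e he, by omega⟩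
  refine le_trans (Finset.sum_le_sum_of_subset_of_nonneg hsub fun e _ _ => by positivity) ?_
  refine le_trans (tail_sum hM N) ?_
  have : 0 ≤ 1 / Real.log ((M : ℝ) + N - 1) := by
    apply div_nonneg zero_le_one
    apply Real.log_nonneg
    have : (0 : ℝ) ≤ N := Nat.cast_nonneg N
    linarith
  linarith

/-- Prime factor part: the primes `p` with `y ≤ p e < y + h`. -/
theorem prime_part {B : ℝ} (hB : 0 < B)
    (hbt : ∀ x M : ℕ, 2 ≤ M →
      (((Finset.Ico x (x + M)).filter Nat.Prime).card : ℝ) ≤ B * M / Real.log M)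
    (h : OrdMaj C0 s A P0 F) (hC : 0 ≤ C0) (hs1 : s ≤ 1)
    {y H e : ℕ} (he : 1 ≤ e) (hy : 2 ≤ y) (hHe : (y : ℝ) ^ (1 / 5 : ℝ) ≤ (H : ℝ) / e)
    (hye : (y : ℝ) ^ (1 / 2 : ℝ) ≤ (y : ℝ) / e) (T : Finset ℕ)
    (hT : ∀ p ∈ T, p.Prime ∧ y ≤ p * e ∧ p * e < y + H) :
    ∑ p ∈ T, F p ≤ 15 * B * C0 * 2 ^ A * ((H : ℝ) * (y : ℝ) ^ (s - 1)
      / (Real.log y) ^ (A + 1)) * (e : ℝ) ^ (-s) := by
  have hy0 : (0 : ℝ) < y := by positivity
  have hy1 : (1 : ℝ) < y := by exact_mod_cast (by omega : 1 < y)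
  have he0 : (0 : ℝ) < e := by exact_mod_cast (by omega : 0 < e)
  have hly : 0 < Real.log y := Real.log_pos hy1
  have h1le : (1 : ℝ) ≤ (H : ℝ) / e :=
    le_trans (Real.one_le_rpow hy1.le (by norm_num)) hHe
  -- the interval
  set x : ℕ := (y + e - 1) / e with hx
  set M : ℕ := H / e + 2 with hM
  have hM2 : 2 ≤ M := by rw [hM]; exact Nat.le_add_left 2 _
  have hsub : T ⊆ (Finset.Ico x (x + M)).filter Nat.Prime := by
    intro p hp
    obtain ⟨h1, h2, h3⟩ := hT p hp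
    rw [Finset.mem_filter, Finset.mem_Ico]
    refine ⟨⟨?_, ?_⟩, h1⟩
    · rw [hx]
      have h4 : (y + e - 1) / e < p + 1 := by
        rw [Nat.div_lt_iff_lt_mul (by omega), add_mul, one_mul]
        omega
      omega
    · by_contra hcon
      rw [not_lt] at hcon
      have h5 : y ≤ x * e := by
        have h6 := Nat.lt_div_mul_add (a := y + e - 1) (b := e) (by omega)
        rw [← hx] at h6
        omega
      have h7 : H < (H / e + 1) * e := by
        have h8 := Nat.lt_div_mul_add (a := H) (b := e) (by omega)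
        rw [add_mul, one_mul]
        exact h8
      have h9 : (x + (H / e + 1)) * e ≤ p * e := Nat.mul_le_mul_right e (by omega)
      rw [add_mul] at h9
      omega
  have hcard : (T.card : ℝ) ≤ B * M / Real.log M :=
    le_trans (by exact_mod_cast Finset.card_le_card hsub) (hbt x M hM2)
  have hMle : (M : ℝ) ≤ 3 * ((H : ℝ) / e) := by
    have h5 : ((H / e : ℕ) : ℝ) ≤ (H : ℝ) / e := Nat.cast_div_le
    rw [hM]
    push_cast
    linarith
  have hMge : (H : ℝ) / e ≤ M := by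
    have h5 : (H : ℝ) / e < (H / e : ℕ) + 1 := by
      rw [div_lt_iff₀ he0]
      have h8 := Nat.lt_div_mul_add (a := H) (b := e) (by omega)
      have h7 : H < (H / e + 1) * e := by
        rw [add_mul, one_mul]
        exact h8
      exact_mod_cast h7
    rw [hM]
    push_cast
    linarith
  have hlogM : Real.log y / 5 ≤ Real.log M := by
    have h6 : Real.log ((y : ℝ) ^ (1 / 5 : ℝ)) ≤ Real.log M :=
      Real.log_le_log (Real.rpow_pos_of_pos hy0 _) (le_trans hHe hMge)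
    rw [Real.log_rpow hy0] at h6
    linarith
  have hcard2 : (T.card : ℝ) ≤ 15 * B * ((H : ℝ) / e) / Real.log y := by
    refine le_trans hcard ?_
    rw [div_le_div_iff₀ (by linarith) hly]
    have h7 : B * M * Real.log y ≤ B * (3 * ((H : ℝ) / e)) * (5 * Real.log M) := by
      apply mul_le_mul (mul_le_mul_of_nonneg_left hMle hB.le) (by linarith) hly.le
      positivity
    linarith
  -- the values
  have hval : ∀ p ∈ T, F p ≤ C0 * 2 ^ A * (((y : ℝ) / e) ^ (s - 1) / (Real.log y) ^ A) := by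
    intro p hp
    obtain ⟨h1, h2, h3⟩ := hT p hp
    have hp1 : (y : ℝ) / e ≤ p := by
      rw [div_le_iff₀ he0]
      exact_mod_cast h2
    have hye0 : 0 < (y : ℝ) / e := by positivity
    have hlogp : Real.log y / 2 ≤ Real.log p := by
      have h6 : Real.log ((y : ℝ) ^ (1 / 2 : ℝ)) ≤ Real.log p :=
        Real.log_le_log (Real.rpow_pos_of_pos hy0 _) (le_trans hye hp1)
      rw [Real.log_rpow hy0] at h6
      linarith
    have h8 : (p : ℝ) ^ (s - 1) ≤ ((y : ℝ) / e) ^ (s - 1) :=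
      Real.rpow_le_rpow_of_nonpos hye0 hp1 (by linarith)
    refine le_trans (h.le p h1) ?_
    rw [mul_div_assoc, mul_assoc]
    refine mul_le_mul_of_nonneg_left ?_ hC
    have h9 : (Real.log y) ^ A ≤ 2 ^ A * (Real.log p) ^ A := by
      rw [← mul_pow]
      exact pow_le_pow_left₀ hly.le (by linarith) A
    have h10 : 0 < Real.log p := by linarith
    rw [← mul_div_assoc, div_le_div_iff₀ (by positivity) (by positivity)]
    calc (p : ℝ) ^ (s - 1) * (Real.log y) ^ A
        ≤ ((y : ℝ) / e) ^ (s - 1) * (2 ^ A * (Real.log p) ^ A) :=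
          mul_le_mul h8 h9 (by positivity) (by positivity)
      _ = 2 ^ A * ((y : ℝ) / e) ^ (s - 1) * (Real.log p) ^ A := by ring
  calc ∑ p ∈ T, F p ≤ ∑ p ∈ T, C0 * 2 ^ A * (((y : ℝ) / e) ^ (s - 1) / (Real.log y) ^ A) :=
        Finset.sum_le_sum hval
    _ = T.card * (C0 * 2 ^ A * (((y : ℝ) / e) ^ (s - 1) / (Real.log y) ^ A)) := by
        rw [Finset.sum_const, nsmul_eq_mul]
    _ ≤ (15 * B * ((H : ℝ) / e) / Real.log y) *
        (C0 * 2 ^ A * (((y : ℝ) / e) ^ (s - 1) / (Real.log y) ^ A)) :=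
        mul_le_mul_of_nonneg_right hcard2 (by positivity)
    _ = _ := by
        have h11 : ((y : ℝ) / e) ^ (s - 1) = (y : ℝ) ^ (s - 1) * ((e : ℝ) * (e : ℝ) ^ (-s)) := by
          rw [Real.div_rpow hy0.le he0.le, div_eq_mul_inv, ← Real.rpow_neg he0.le]
          congr 1
          rw [show -(s - 1) = 1 + (-s) by ring, Real.rpow_add he0, Real.rpow_one]
        rw [h11, pow_succ]
        have e1 : (Real.log y) ^ A ≠ 0 := (pow_pos hly A).ne'
        field_simp

/-- elementary size facts -/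
theorem size_facts {y H : ℕ} (hy : 2 ^ 120 ≤ y) (hH : (y : ℝ) ^ (1 / 3 : ℝ) ≤ H) :
    ∃ z : ℕ, 2 ≤ z ∧ z ^ 3 ≤ y ∧ (y : ℝ) ^ (1 / 8 : ℝ) ≤ z ∧
      ∀ e : ℕ, 1 ≤ e → e < z → (y : ℝ) ^ (1 / 5 : ℝ) ≤ (H : ℝ) / e ∧
        (y : ℝ) ^ (1 / 2 : ℝ) ≤ (y : ℝ) / e := by
  have hy0 : (0 : ℝ) < y := by
    have : 0 < y := lt_of_lt_of_le (by norm_num) hy
    exact_mod_cast this
  have hy14 : (2 : ℝ) ^ (120 : ℝ) ≤ y := by
    have : ((2 ^ 120 : ℕ) : ℝ) ≤ y := by exact_mod_cast hy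
    refine le_trans (le_of_eq ?_) this
    rw [show (120 : ℝ) = ((120 : ℕ) : ℝ) by norm_num, Real.rpow_natCast]
    norm_num
  have key : ∀ a : ℝ, 0 ≤ a → (2 : ℝ) ^ (120 * a) ≤ (y : ℝ) ^ a := by
    intro a ha
    rw [Real.rpow_mul (by norm_num)]
    exact Real.rpow_le_rpow (by positivity) hy14 ha
  have hy1 : (1 : ℝ) ≤ (y : ℝ) ^ (1 / 8 : ℝ) := by
    refine le_trans ?_ (key (1 / 8) (by norm_num))
    exact Real.one_le_rpow (by norm_num) (by norm_num)
  set z : ℕ := ⌊(y : ℝ) ^ (1 / 8 : ℝ)⌋₊ + 1 with hz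
  have hfl : (⌊(y : ℝ) ^ (1 / 8 : ℝ)⌋₊ : ℝ) ≤ (y : ℝ) ^ (1 / 8 : ℝ) := Nat.floor_le (by linarith)
  have hfl1 : 1 ≤ ⌊(y : ℝ) ^ (1 / 8 : ℝ)⌋₊ := Nat.le_floor (by exact_mod_cast hy1)
  have hzle : (z : ℝ) ≤ 2 * (y : ℝ) ^ (1 / 8 : ℝ) := by
    rw [hz]
    push_cast
    linarith
  refine ⟨z, by omega, ?_, ?_, ?_⟩
  · have h1 : (z : ℝ) ^ 3 ≤ y := by
      calc (z : ℝ) ^ 3 ≤ (2 * (y : ℝ) ^ (1 / 8 : ℝ)) ^ 3 :=
            pow_le_pow_left₀ (Nat.cast_nonneg _) hzle 3
        _ = 8 * (y : ℝ) ^ (3 / 8 : ℝ) := by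
            rw [mul_pow, ← Real.rpow_natCast ((y : ℝ) ^ (1 / 8 : ℝ)) 3, ← Real.rpow_mul hy0.le]
            norm_num
        _ ≤ (y : ℝ) ^ (5 / 8 : ℝ) * (y : ℝ) ^ (3 / 8 : ℝ) := by
            apply mul_le_mul_of_nonneg_right _ (by positivity)
            refine le_trans ?_ (key (5 / 8) (by norm_num))
            calc (8 : ℝ) = (2 : ℝ) ^ (3 : ℝ) := by
                  rw [show (3 : ℝ) = ((3 : ℕ) : ℝ) by norm_num, Real.rpow_natCast]; norm_num
              _ ≤ (2 : ℝ) ^ (120 * (5 / 8) : ℝ) :=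
                  Real.rpow_le_rpow_of_exponent_le (by norm_num) (by norm_num)
        _ = y := by
            rw [← Real.rpow_add hy0]
            norm_num
    exact_mod_cast h1
  · rw [hz]
    push_cast
    exact (Nat.lt_floor_add_one _).le
  · intro e he hez
    have he0 : (0 : ℝ) < e := by exact_mod_cast (by omega : 0 < e)
    have hez' : (e : ℝ) ≤ 2 * (y : ℝ) ^ (1 / 8 : ℝ) := by
      refine le_trans ?_ hzle
      exact_mod_cast hez.le
    constructor
    · rw [le_div_iff₀ he0]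
      refine le_trans ?_ hH
      calc (y : ℝ) ^ (1 / 5 : ℝ) * e ≤ (y : ℝ) ^ (1 / 5 : ℝ) * (2 * (y : ℝ) ^ (1 / 8 : ℝ)) :=
            mul_le_mul_of_nonneg_left hez' (by positivity)
        _ ≤ (y : ℝ) ^ (1 / 5 : ℝ) * ((y : ℝ) ^ (1 / 120 : ℝ) * (y : ℝ) ^ (1 / 8 : ℝ)) := by
            apply mul_le_mul_of_nonneg_left _ (by positivity)
            apply mul_le_mul_of_nonneg_right _ (by positivity)
            refine le_trans ?_ (key (1 / 120) (by norm_num))
            calc (2 : ℝ) = (2 : ℝ) ^ (1 : ℝ) := (Real.rpow_one _).symm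
              _ ≤ (2 : ℝ) ^ (120 * (1 / 120) : ℝ) :=
                  Real.rpow_le_rpow_of_exponent_le (by norm_num) (by norm_num)
        _ = (y : ℝ) ^ (1 / 3 : ℝ) := by
            rw [← Real.rpow_add hy0, ← Real.rpow_add hy0]
            norm_num
    · rw [le_div_iff₀ he0]
      calc (y : ℝ) ^ (1 / 2 : ℝ) * e ≤ (y : ℝ) ^ (1 / 2 : ℝ) * (2 * (y : ℝ) ^ (1 / 8 : ℝ)) :=
            mul_le_mul_of_nonneg_left hez' (by positivity)
        _ ≤ (y : ℝ) ^ (1 / 2 : ℝ) * ((y : ℝ) ^ (3 / 8 : ℝ) * (y : ℝ) ^ (1 / 8 : ℝ)) := by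
            apply mul_le_mul_of_nonneg_left _ (by positivity)
            apply mul_le_mul_of_nonneg_right _ (by positivity)
            refine le_trans ?_ (key (3 / 8) (by norm_num))
            calc (2 : ℝ) = (2 : ℝ) ^ (1 : ℝ) := (Real.rpow_one _).symm
              _ ≤ (2 : ℝ) ^ (120 * (3 / 8) : ℝ) :=
                  Real.rpow_le_rpow_of_exponent_le (by norm_num) (by norm_num)
        _ = y := by
            rw [← Real.rpow_add hy0, ← Real.rpow_add hy0]
            norm_num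

/-- The weighted sum of a majorant. -/
theorem mass_small (h : OrdMaj C0 s A P0 F) (hC : 0 ≤ C0) (hA : 2 ≤ A) (hP : 4 ≤ P0)
    (hlog : C0 ≤ (Real.log P0 / 2) ^ A) (T : Finset ℕ) (hT : ∀ e ∈ T, 2 ≤ e) :
    ∑ e ∈ T, F e * (e : ℝ) ^ (-s) ≤ C0 / Real.log ((P0 : ℝ) - 1) := by
  classical
  have h1 : ∑ e ∈ T, F e * (e : ℝ) ^ (-s) = ∑ e ∈ T.filter (fun e => P0 ≤ e),
      F e * (e : ℝ) ^ (-s) := by
    rw [Finset.sum_filter]
    refine Finset.sum_congr rfl fun e he => ?_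
    split_ifs with hc
    · rfl
    · rw [h.zero_of_lt (hT e he) (by omega), zero_mul]
  rw [h1]
  have h2 : ∀ e ∈ T.filter (fun e => P0 ≤ e), F e * (e : ℝ) ^ (-s) ≤
      C0 * (1 / ((e : ℝ) * (Real.log e) ^ 2)) := by
    intro e he
    rw [Finset.mem_filter] at he
    have he4 : 4 ≤ e := le_trans hP he.2
    have he0 : (0 : ℝ) < e := by exact_mod_cast (by omega : 0 < e)
    have hlog1 : 1 ≤ Real.log e := by
      rw [Real.le_log_iff_exp_le he0]
      have : (4 : ℝ) ≤ e := by exact_mod_cast he4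
      linarith [Real.exp_one_lt_d9]
    have h3 := h.pointwise hC (by omega) hlog e (hT e he.1)
    have h4 : C0 * (e : ℝ) ^ (s - 1) / (Real.log e) ^ A ≤
        C0 * (e : ℝ) ^ (s - 1) / (Real.log e) ^ 2 := by
      apply div_le_div_of_nonneg_left (by positivity) (by positivity)
      exact pow_le_pow_right₀ hlog1 hA
    calc F e * (e : ℝ) ^ (-s) ≤ C0 * (e : ℝ) ^ (s - 1) / (Real.log e) ^ 2 * (e : ℝ) ^ (-s) :=
          mul_le_mul_of_nonneg_right (le_trans h3 h4) (by positivity)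
      _ = C0 * (((e : ℝ) ^ (s - 1) * (e : ℝ) ^ (-s)) / (Real.log e) ^ 2) := by ring
      _ = _ := by
          rw [← Real.rpow_add he0, show s - 1 + -s = -1 by ring, Real.rpow_neg_one]
          field_simp
  refine le_trans (Finset.sum_le_sum h2) ?_
  rw [← Finset.mul_sum, div_eq_mul_one_div C0]
  refine mul_le_mul_of_nonneg_left ?_ hC
  exact tail_sum_le (by omega) _ fun e he => (Finset.mem_filter.1 he).2

/-- Composite integers of a window, at a fixed level. -/
theorem composite_level {B : ℝ} (hB : 0 < B)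
    (hbt : ∀ x M : ℕ, 2 ≤ M →
      (((Finset.Ico x (x + M)).filter Nat.Prime).card : ℝ) ≤ B * M / Real.log M)
    (h : OrdMaj C0 s A P0 F) (hC : 0 ≤ C0) (hs1 : s ≤ 1) (hA : 2 ≤ A) (hP : 4 ≤ P0)
    (hlog : C0 ≤ (Real.log P0 / 2) ^ A) {y H : ℕ} (hy : 2 ^ 120 ≤ y)
    (hH : (y : ℝ) ^ (1 / 3 : ℝ) ≤ H) :
    ∑ n ∈ (Finset.Ico y (y + H)).filter (fun n => 2 ≤ n ∧ ¬ n.Prime), F n ≤
      (C0 ^ 2 * 8 ^ (2 * A) / Real.log y + 15 * B * C0 * 2 ^ A * (C0 / Real.log ((P0 : ℝ) - 1)))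
        * ((H : ℝ) * (y : ℝ) ^ (s - 1) / (Real.log y) ^ (A + 1)) := by
  classical
  obtain ⟨z, hz2, hz3, hzy, hze⟩ := size_facts hy hH
  have hy2 : 2 ≤ y := le_trans (by norm_num) hy
  have hy0 : (0 : ℝ) < y := by exact_mod_cast (by omega : 0 < y)
  have hlogy1 : 1 ≤ Real.log y := by
    rw [Real.le_log_iff_exp_le hy0]
    have : (2 ^ 120 : ℝ) ≤ y := by exact_mod_cast hy
    linarith [Real.exp_one_lt_d9]
  have hlogy0 : 0 < Real.log y := by linarith
  have hlogz : Real.log y / 8 ≤ Real.log z := by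
    have h6 : Real.log ((y : ℝ) ^ (1 / 8 : ℝ)) ≤ Real.log z :=
      Real.log_le_log (Real.rpow_pos_of_pos hy0 _) hzy
    rw [Real.log_rpow hy0] at h6
    linarith
  set S := (Finset.Ico y (y + H)).filter (fun n => 2 ≤ n ∧ ¬ n.Prime) with hS
  set G : ℝ := (H : ℝ) * (y : ℝ) ^ (s - 1) / (Real.log y) ^ (A + 1) with hG
  have hsplit := Finset.sum_filter_add_sum_filter_not S
    (fun n => ∃ u, u ∣ n ∧ z ≤ u ∧ z ≤ n / u) F
  rw [← hsplit]
  -- balanced part
  have hpart1 : ∑ n ∈ S.filter (fun n => ∃ u, u ∣ n ∧ z ≤ u ∧ z ≤ n / u), F n ≤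
      C0 ^ 2 * 8 ^ (2 * A) / Real.log y * G := by
    have hb : ∀ n ∈ S.filter (fun n => ∃ u, u ∣ n ∧ z ≤ u ∧ z ≤ n / u), F n ≤
        C0 ^ 2 * 8 ^ (2 * A) * ((y : ℝ) ^ (s - 1) / (Real.log y) ^ (2 * A)) := by
      intro n hn
      rw [Finset.mem_filter, hS, Finset.mem_filter, Finset.mem_Ico] at hn
      obtain ⟨⟨⟨hyn, -⟩, hn2, -⟩, u, hu, hzu, hzv⟩ := hn
      obtain ⟨v, hv⟩ := hu
      have hu0 : 0 < u := by omega
      have hdiv : n / u = v := by rw [hv]; exact Nat.mul_div_cancel_left v hu0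
      rw [hdiv] at hzv
      have hu' : (0 : ℝ) < u := by exact_mod_cast hu0
      have hv' : (0 : ℝ) < v := by exact_mod_cast (by omega : 0 < v)
      have hz' : (0 : ℝ) < z := by exact_mod_cast (by omega : 0 < z)
      have h1 := h.pointwise hC (by omega) hlog u (by omega)
      have h2 := h.pointwise hC (by omega) hlog v (by omega)
      have hlu : Real.log y / 8 ≤ Real.log u :=
        le_trans hlogz (Real.log_le_log hz' (by exact_mod_cast hzu))
      have hlv : Real.log y / 8 ≤ Real.log v :=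
        le_trans hlogz (Real.log_le_log hz' (by exact_mod_cast hzv))
      have h3 : ∀ w : ℕ, (0 : ℝ) < w → Real.log y / 8 ≤ Real.log w →
          C0 * (w : ℝ) ^ (s - 1) / (Real.log w) ^ A ≤
            C0 * (w : ℝ) ^ (s - 1) * (8 ^ A / (Real.log y) ^ A) := by
        intro w hw hlw
        have hlw0 : 0 < Real.log w := by linarith
        rw [div_eq_mul_inv]
        refine mul_le_mul_of_nonneg_left ?_ (by positivity)
        rw [inv_eq_one_div, div_le_div_iff₀ (by positivity) (by positivity), one_mul, ← mul_pow]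
        exact pow_le_pow_left₀ (by linarith) (by linarith) A
      rw [hv, h.mul u v hu0 (by omega)]
      calc F u * F v ≤ (C0 * (u : ℝ) ^ (s - 1) * (8 ^ A / (Real.log y) ^ A)) *
            (C0 * (v : ℝ) ^ (s - 1) * (8 ^ A / (Real.log y) ^ A)) :=
            mul_le_mul (le_trans h1 (h3 u hu' hlu)) (le_trans h2 (h3 v hv' hlv)) (h.nonneg v)
              (by positivity)
        _ = C0 ^ 2 * 8 ^ (2 * A) * (((u : ℝ) ^ (s - 1) * (v : ℝ) ^ (s - 1)) /
              (Real.log y) ^ (2 * A)) := by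
            rw [pow_mul' (8 : ℝ) 2 A, pow_mul' (Real.log y) 2 A]
            field_simp
        _ ≤ _ := by
            refine mul_le_mul_of_nonneg_left ?_ (by positivity)
            apply div_le_div_of_nonneg_right _ (by positivity)
            rw [← Real.mul_rpow hu'.le hv'.le]
            apply Real.rpow_le_rpow_of_nonpos hy0 _ (by linarith)
            have : (y : ℝ) ≤ n := by exact_mod_cast hyn
            rw [hv] at this
            push_cast at this
            exact this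
    have hcard : ((S.filter (fun n => ∃ u, u ∣ n ∧ z ≤ u ∧ z ≤ n / u)).card : ℝ) ≤ H := by
      have h1 : (S.filter (fun n => ∃ u, u ∣ n ∧ z ≤ u ∧ z ≤ n / u)).card ≤ H := by
        calc _ ≤ S.card := Finset.card_filter_le _ _
          _ ≤ (Finset.Ico y (y + H)).card := Finset.card_filter_le _ _
          _ = H := by rw [Nat.card_Ico]; omega
      exact_mod_cast h1
    refine le_trans (Finset.sum_le_sum hb) ?_
    rw [Finset.sum_const, nsmul_eq_mul]
    refine le_trans (mul_le_mul_of_nonneg_right hcard (by positivity)) ?_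
    rw [hG]
    have h5 : (Real.log y) ^ (A + 1) * Real.log y ≤ (Real.log y) ^ (2 * A) := by
      rw [← pow_succ]
      exact pow_le_pow_right₀ hlogy1 (by omega)
    have h6 : (H : ℝ) * (C0 ^ 2 * 8 ^ (2 * A) * ((y : ℝ) ^ (s - 1) / (Real.log y) ^ (2 * A)))
        = (C0 ^ 2 * 8 ^ (2 * A) * (H * (y : ℝ) ^ (s - 1))) / (Real.log y) ^ (2 * A) := by ring
    have h7 : C0 ^ 2 * 8 ^ (2 * A) / Real.log y *
        ((H : ℝ) * (y : ℝ) ^ (s - 1) / (Real.log y) ^ (A + 1))
        = (C0 ^ 2 * 8 ^ (2 * A) * (H * (y : ℝ) ^ (s - 1))) /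
          ((Real.log y) ^ (A + 1) * Real.log y) := by
      field_simp
    rw [h6, h7]
    exact div_le_div_of_nonneg_left (by positivity)
      (mul_pos (pow_pos hlogy0 _) hlogy0) h5
  -- part with a large prime factor
  have hpart2 : ∑ n ∈ S.filter (fun n => ¬ ∃ u, u ∣ n ∧ z ≤ u ∧ z ≤ n / u), F n ≤
      15 * B * C0 * 2 ^ A * (C0 / Real.log ((P0 : ℝ) - 1)) * G := by
    set S2 := S.filter (fun n => ¬ ∃ u, u ∣ n ∧ z ≤ u ∧ z ≤ n / u) with hS2
    have hex : ∀ n ∈ S2, ∃ p e, p.Prime ∧ n = p * e ∧ e < z ∧ 2 ≤ e := by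
      intro n hn
      rw [hS2, Finset.mem_filter, hS, Finset.mem_filter, Finset.mem_Ico] at hn
      obtain ⟨⟨⟨hyn, -⟩, hn2, hnp⟩, hno⟩ := hn
      rcases dichotomy hz2 (le_trans hz3 hyn) with h1 | ⟨p, e, hp, hpe, hez⟩
      · exact absurd h1 hno
      · refine ⟨p, e, hp, hpe, hez, ?_⟩
        rcases Nat.lt_or_ge e 2 with h2 | h2
        · exfalso
          interval_cases e
          · rw [mul_zero] at hpe; omega
          · rw [mul_one] at hpe; exact hnp (hpe ▸ hp)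
        · exact h2
    choose! p e hp using hex
    set R := ((Finset.Ico 2 z) ×ˢ (Finset.range (y + H))).filter
      (fun x => x.2.Prime ∧ y ≤ x.2 * x.1 ∧ x.2 * x.1 < y + H) with hR
    have hinj : Set.InjOn (fun n => (e n, p n)) (S2 : Set ℕ) := by
      intro a ha b hb hab
      simp only [Prod.mk.injEq] at hab
      rw [(hp a ha).2.1, (hp b hb).2.1, hab.1, hab.2]
    have himg : S2.image (fun n => (e n, p n)) ⊆ R := by
      intro x hx
      rw [Finset.mem_image] at hx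
      obtain ⟨n, hn, rfl⟩ := hx
      obtain ⟨h1, h2, h3, h4⟩ := hp n hn
      rw [hS2, Finset.mem_filter, hS, Finset.mem_filter, Finset.mem_Ico] at hn
      rw [hR, Finset.mem_filter, Finset.mem_product, Finset.mem_Ico, Finset.mem_range]
      simp only
      rw [← h2]
      refine ⟨⟨⟨h4, h3⟩, ?_⟩, h1, hn.1.1⟩
      have : p n * 1 ≤ p n * e n := Nat.mul_le_mul_left _ (by omega)
      rw [← h2] at this
      omega
    have hsum1 : ∑ n ∈ S2, F n = ∑ x ∈ S2.image (fun n => (e n, p n)), F x.2 * F x.1 := by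
      rw [Finset.sum_image hinj]
      refine Finset.sum_congr rfl fun n hn => ?_
      obtain ⟨h1, h2, h3, h4⟩ := hp n hn
      simp only
      rw [← h.mul (p n) (e n) h1.pos (by omega), ← h2]
    have hsum2 : ∑ n ∈ S2, F n ≤ ∑ e ∈ Finset.Ico 2 z, ∑ p ∈ (Finset.range (y + H)).filter
        (fun p => p.Prime ∧ y ≤ p * e ∧ p * e < y + H), F p * F e := by
      rw [hsum1]
      refine le_trans (Finset.sum_le_sum_of_subset_of_nonneg himg
        fun x _ _ => mul_nonneg (h.nonneg _) (h.nonneg _)) ?_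
      rw [hR, Finset.sum_filter, Finset.sum_product]
      apply le_of_eq
      refine Finset.sum_congr rfl fun e _ => ?_
      rw [Finset.sum_filter]
    refine le_trans hsum2 ?_
    have hsum3 : ∀ e ∈ Finset.Ico 2 z, ∑ p ∈ (Finset.range (y + H)).filter
        (fun p => p.Prime ∧ y ≤ p * e ∧ p * e < y + H), F p * F e ≤
        15 * B * C0 * 2 ^ A * G * (F e * (e : ℝ) ^ (-s)) := by
      intro e he
      rw [Finset.mem_Ico] at he
      rw [← Finset.sum_mul]
      have h1 := prime_part hB hbt h hC hs1 (by omega) hy2 (hze e (by omega) he.2).1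
        (hze e (by omega) he.2).2 ((Finset.range (y + H)).filter
        (fun p => p.Prime ∧ y ≤ p * e ∧ p * e < y + H)) (fun p hp => (Finset.mem_filter.1 hp).2)
      refine le_trans (mul_le_mul_of_nonneg_right h1 (h.nonneg e)) (le_of_eq ?_)
      rw [hG]
      ring
    refine le_trans (Finset.sum_le_sum hsum3) ?_
    rw [← Finset.mul_sum]
    have hm := mass_small h hC hA hP hlog (Finset.Ico 2 z) (fun e he => (Finset.mem_Ico.1 he).1)
    calc 15 * B * C0 * 2 ^ A * G * ∑ e ∈ Finset.Ico 2 z, F e * (e : ℝ) ^ (-s)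
        ≤ 15 * B * C0 * 2 ^ A * G * (C0 / Real.log ((P0 : ℝ) - 1)) :=
          mul_le_mul_of_nonneg_left hm (by rw [hG]; positivity)
      _ = _ := by ring
  calc _ ≤ C0 ^ 2 * 8 ^ (2 * A) / Real.log y * G +
      15 * B * C0 * 2 ^ A * (C0 / Real.log ((P0 : ℝ) - 1)) * G := add_le_add hpart1 hpart2
    _ = _ := by ring

/-- All integers `≥ 2` of a window, at a fixed level. -/
theorem total_level {B : ℝ} (hB : 0 < B)
    (hbt : ∀ x M : ℕ, 2 ≤ M →
      (((Finset.Ico x (x + M)).filter Nat.Prime).card : ℝ) ≤ B * M / Real.log M)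
    (h : OrdMaj C0 s A P0 F) (hC : 0 ≤ C0) (hs1 : s ≤ 1) (hA : 2 ≤ A) (hP : 4 ≤ P0)
    (hlog : C0 ≤ (Real.log P0 / 2) ^ A) {y H : ℕ} (hy : 2 ^ 120 ≤ y)
    (hH : (y : ℝ) ^ (1 / 3 : ℝ) ≤ H) :
    ∑ n ∈ (Finset.Ico y (y + H)), F n ≤
      (15 * B * C0 * 2 ^ A + (C0 ^ 2 * 8 ^ (2 * A) / Real.log y +
        15 * B * C0 * 2 ^ A * (C0 / Real.log ((P0 : ℝ) - 1))))
        * ((H : ℝ) * (y : ℝ) ^ (s - 1) / (Real.log y) ^ (A + 1)) := by
  classical
  have hy2 : 2 ≤ y := le_trans (by norm_num) hy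
  have h1 := composite_level hB hbt h hC hs1 hA hP hlog hy hH
  obtain ⟨z, hz2, hz3, hzy, hze⟩ := size_facts hy hH
  have h2 := prime_part hB hbt h hC hs1 (le_refl 1) hy2 (hze 1 le_rfl (by omega)).1
        (hze 1 le_rfl (by omega)).2 ((Finset.Ico y (y + H)).filter (fun p => p.Prime))
        (fun p hp => by
          rw [Finset.mem_filter, Finset.mem_Ico] at hp
          exact ⟨hp.2, by omega, by omega⟩)
  rw [Nat.cast_one, Real.one_rpow, mul_one] at h2
  have h3 : ∑ n ∈ (Finset.Ico y (y + H)), F n =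
      ∑ p ∈ (Finset.Ico y (y + H)).filter (fun p => p.Prime), F p +
        ∑ n ∈ (Finset.Ico y (y + H)).filter (fun n => 2 ≤ n ∧ ¬ n.Prime), F n := by
    rw [← Finset.sum_filter_add_sum_filter_not (Finset.Ico y (y + H)) Nat.Prime]
    congr 1
    refine Finset.sum_congr ?_ fun _ _ => rfl
    ext n
    rw [Finset.mem_filter, Finset.mem_filter, Finset.mem_Ico]
    constructor
    · rintro ⟨h4, h5⟩
      exact ⟨h4, by omega, h5⟩
    · rintro ⟨h4, _, h5⟩
      exact ⟨h4, h5⟩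
  rw [h3, add_mul]
  exact add_le_add h2 h1

/-- Composite integers: `ε`-form. -/
theorem ord_composite {C0 s : ℝ} {A : ℕ} (hC : 0 ≤ C0) (hs1 : s ≤ 1) (hA : 2 ≤ A)
    {ε : ℝ} (hε : 0 < ε) : ∃ P1 : ℕ, ∀ P0 : ℕ, P1 ≤ P0 → ∀ F : ℕ → ℝ, OrdMaj C0 s A P0 F →
      ∀ y H : ℕ, (y : ℝ) ^ (1 / 3 : ℝ) ≤ H → H ≤ y →
      ∑ n ∈ (Finset.Ico y (y + H)).filter (fun n => 2 ≤ n ∧ ¬ n.Prime), F n ≤
        ε * ((H : ℝ) * (y : ℝ) ^ (s - 1) / (Real.log y) ^ (A + 1)) := by
  obtain ⟨B, hB, hbt⟩ := bt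
  have ht : Tendsto (fun P : ℕ => Real.log (P : ℝ)) atTop atTop :=
    Real.tendsto_log_atTop.comp tendsto_natCast_atTop_atTop
  have ht1 : Tendsto (fun P : ℕ => Real.log ((P : ℝ) - 1)) atTop atTop := by
    have h0 : Tendsto (fun P : ℕ => (P : ℝ) + (-1)) atTop atTop :=
      tendsto_atTop_add_const_right atTop (-1) tendsto_natCast_atTop_atTop
    exact Real.tendsto_log_atTop.comp h0
  obtain ⟨Y0, hY0⟩ := Filter.eventually_atTop.1
    ((ht.eventually_ge_atTop (2 * (C0 ^ 2 * 8 ^ (2 * A)) / ε + 1)).and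
      (Filter.eventually_ge_atTop (2 ^ 120)))
  obtain ⟨P1, hP1⟩ := Filter.eventually_atTop.1
    (((ht.eventually_ge_atTop (2 * (C0 + 1))).and
      (ht1.eventually_ge_atTop (2 * (15 * B * C0 * 2 ^ A * C0) / ε + 1))).and
      (Filter.eventually_ge_atTop (2 * Y0 + 4)))
  refine ⟨P1, ?_⟩
  intro P0 hP0 F hF y H hH hHy
  obtain ⟨⟨h1, h2⟩, h3⟩ := hP1 P0 hP0
  have hlog : C0 ≤ (Real.log P0 / 2) ^ A := by
    have h4 : C0 + 1 ≤ Real.log P0 / 2 := by linarith
    have h5 : Real.log P0 / 2 ≤ (Real.log P0 / 2) ^ A :=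
      le_self_pow₀ (by linarith) (by omega)
    linarith
  rcases Nat.lt_or_ge y Y0 with hyY | hyY
  · -- everything vanishes
    have hz : ∑ n ∈ (Finset.Ico y (y + H)).filter (fun n => 2 ≤ n ∧ ¬ n.Prime), F n = 0 := by
      apply Finset.sum_eq_zero
      intro n hn
      rw [Finset.mem_filter, Finset.mem_Ico] at hn
      exact hF.zero_of_lt hn.2.1 (by omega)
    rw [hz]
    have : 0 ≤ Real.log (y : ℝ) := Real.log_natCast_nonneg y
    positivity
  · obtain ⟨h6, h7⟩ := hY0 y hyY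
    refine le_trans (composite_level hB hbt hF hC hs1 hA (by omega) hlog h7 hH) ?_
    have hly : 0 < Real.log (y : ℝ) := by
      have : 0 ≤ 2 * (C0 ^ 2 * 8 ^ (2 * A)) / ε := by positivity
      linarith
    have hlP : 0 < Real.log ((P0 : ℝ) - 1) := by
      have : 0 ≤ 2 * (15 * B * C0 * 2 ^ A * C0) / ε := by positivity
      linarith
    apply mul_le_mul_of_nonneg_right _ (by positivity)
    have h8 : C0 ^ 2 * 8 ^ (2 * A) / Real.log y ≤ ε / 2 := by
      rw [div_le_iff₀ hly]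
      have : 2 * (C0 ^ 2 * 8 ^ (2 * A)) / ε ≤ Real.log y := by linarith
      rw [div_le_iff₀ hε] at this
      linarith
    have h9 : 15 * B * C0 * 2 ^ A * (C0 / Real.log ((P0 : ℝ) - 1)) ≤ ε / 2 := by
      rw [← mul_div_assoc, div_le_iff₀ hlP]
      have : 2 * (15 * B * C0 * 2 ^ A * C0) / ε ≤ Real.log ((P0 : ℝ) - 1) := by linarith
      rw [div_le_iff₀ hε] at this
      linarith
    linarith

/-- All integers `≥ 2`: with a constant. -/
theorem ord_total {C0 s : ℝ} {A : ℕ} (hC : 0 ≤ C0) (hs1 : s ≤ 1) (hA : 2 ≤ A) :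
    ∃ C1 : ℝ, 0 < C1 ∧ ∃ P1 : ℕ, ∀ P0 : ℕ, P1 ≤ P0 → ∀ F : ℕ → ℝ, OrdMaj C0 s A P0 F →
      ∀ y H : ℕ, 2 ≤ y → (y : ℝ) ^ (1 / 3 : ℝ) ≤ H → H ≤ y →
      ∑ n ∈ Finset.Ico y (y + H), F n ≤
        C1 * ((H : ℝ) * (y : ℝ) ^ (s - 1) / (Real.log y) ^ (A + 1)) := by
  obtain ⟨B, hB, hbt⟩ := bt
  have ht : Tendsto (fun P : ℕ => Real.log (P : ℝ)) atTop atTop :=
    Real.tendsto_log_atTop.comp tendsto_natCast_atTop_atTop
  have ht1 : Tendsto (fun P : ℕ => Real.log ((P : ℝ) - 1)) atTop atTop := by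
    have h0 : Tendsto (fun P : ℕ => (P : ℝ) + (-1)) atTop atTop :=
      tendsto_atTop_add_const_right atTop (-1) tendsto_natCast_atTop_atTop
    exact Real.tendsto_log_atTop.comp h0
  obtain ⟨P1, hP1⟩ := Filter.eventually_atTop.1
    (((ht.eventually_ge_atTop (2 * (C0 + 1))).and (ht1.eventually_ge_atTop 1)).and
      (Filter.eventually_ge_atTop (2 * 2 ^ 120 + 4)))
  refine ⟨15 * B * C0 * 2 ^ A + (C0 ^ 2 * 8 ^ (2 * A) + 15 * B * C0 * 2 ^ A * C0) + 1,
    by positivity, P1, ?_⟩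
  intro P0 hP0 F hF y H hy2 hH hHy
  obtain ⟨⟨h1, h2⟩, h3⟩ := hP1 P0 hP0
  have hlog : C0 ≤ (Real.log P0 / 2) ^ A := by
    have h4 : C0 + 1 ≤ Real.log P0 / 2 := by linarith
    have h5 : Real.log P0 / 2 ≤ (Real.log P0 / 2) ^ A :=
      le_self_pow₀ (by linarith) (by omega)
    linarith
  rcases Nat.lt_or_ge y (2 ^ 120) with hyY | hyY
  · have hz : ∑ n ∈ Finset.Ico y (y + H), F n = 0 := by
      apply Finset.sum_eq_zero
      intro n hn
      rw [Finset.mem_Ico] at hn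
      exact hF.zero_of_lt (by omega) (by omega)
    rw [hz]
    have : 0 ≤ Real.log (y : ℝ) := Real.log_natCast_nonneg y
    positivity
  · refine le_trans (total_level hB hbt hF hC hs1 hA (by omega) hlog hyY hH) ?_
    have hly : 1 ≤ Real.log (y : ℝ) := by
      have hy0 : (0 : ℝ) < y := by exact_mod_cast (by omega : 0 < y)
      rw [Real.le_log_iff_exp_le hy0]
      have : (2 ^ 120 : ℝ) ≤ y := by exact_mod_cast hyY
      linarith [Real.exp_one_lt_d9]
    have hly0 : 0 < Real.log (y : ℝ) := by linarith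
    apply mul_le_mul_of_nonneg_right _ (by positivity)
    have h8 : C0 ^ 2 * 8 ^ (2 * A) / Real.log y ≤ C0 ^ 2 * 8 ^ (2 * A) :=
      div_le_self (by positivity) hly
    have h9 : 15 * B * C0 * 2 ^ A * (C0 / Real.log ((P0 : ℝ) - 1)) ≤
        15 * B * C0 * 2 ^ A * C0 :=
      mul_le_mul_of_nonneg_left (div_le_self hC h2) (by positivity)
    linarith

/-- The mass: `ε`-form. -/
theorem ord_mass {C0 s : ℝ} {A : ℕ} (hC : 0 ≤ C0) (hA : 2 ≤ A) {ε : ℝ} (hε : 0 < ε) :
    ∃ P1 : ℕ, ∀ P0 : ℕ, P1 ≤ P0 → ∀ F : ℕ → ℝ, OrdMaj C0 s A P0 F →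
      ∀ T : Finset ℕ, (∀ e ∈ T, 2 ≤ e) → ∑ e ∈ T, F e * (e : ℝ) ^ (-s) ≤ ε := by
  have ht : Tendsto (fun P : ℕ => Real.log (P : ℝ)) atTop atTop :=
    Real.tendsto_log_atTop.comp tendsto_natCast_atTop_atTop
  have ht1 : Tendsto (fun P : ℕ => Real.log ((P : ℝ) - 1)) atTop atTop := by
    have h0 : Tendsto (fun P : ℕ => (P : ℝ) + (-1)) atTop atTop :=
      tendsto_atTop_add_const_right atTop (-1) tendsto_natCast_atTop_atTop
    exact Real.tendsto_log_atTop.comp h0
  obtain ⟨P1, hP1⟩ := Filter.eventually_atTop.1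
    (((ht.eventually_ge_atTop (2 * (C0 + 1))).and (ht1.eventually_ge_atTop (C0 / ε + 1))).and
      (Filter.eventually_ge_atTop 4))
  refine ⟨P1, ?_⟩
  intro P0 hP0 F hF T hT
  obtain ⟨⟨h1, h2⟩, h3⟩ := hP1 P0 hP0
  have hlog : C0 ≤ (Real.log P0 / 2) ^ A := by
    have h4 : C0 + 1 ≤ Real.log P0 / 2 := by linarith
    have h5 : Real.log P0 / 2 ≤ (Real.log P0 / 2) ^ A :=
      le_self_pow₀ (by linarith) (by omega)
    linarith
  refine le_trans (mass_small hF hC hA h3 hlog T hT) ?_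
  have h6 : 0 < Real.log ((P0 : ℝ) - 1) := by
    have : 0 ≤ C0 / ε := by positivity
    linarith
  rw [div_le_iff₀ h6]
  have h7 : C0 / ε ≤ Real.log ((P0 : ℝ) - 1) := by linarith
  rw [div_le_iff₀ hε] at h7
  linarith

end Pool.Agent.Helper15.KS
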