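import Pool.Agent.Helper15.KS.H3c

/-!
# Project KS (MP_768c9c_nt): Prop `H3` (direct terms with a small cofactor)
-/

set_option autoImplicit false
open scoped Classical

namespace Pool.Agent.Helper15.KS

open Pool.Agent.Helper16.KS
open Pool.Agent.Helper15.KS.H3

namespace H3

variable (S : Sys)

/-- one term -/
theorem term_le {k0 : ℕ} {R : Set ℕ} (hR : S.Good k0 R)
    (hW : ∀ p : ℕ, p.Prime → 0 ≤ S.Wp k0 R p ∧ S.Wp k0 R p ≤ S.Fh k0 R p)
    {k' j' : ℕ} (hk : S.K ≤ k') (hk' : 100 ≤ k') (hj : j' ∈ S.badc k') {x : ℕ × ℕ}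
    (hx : x ∈ S.act R k' j') {n : ℕ} (_hn : n ≠ 0) (hxn : x.1 ∣ n) (hQ : S.Q3 (k', j') n x) :
    (n.factorization x.1 : ℝ) * (2 * S.wo R k' j' x.2 * S.W k0 R (n / x.1)) ≤
      4 * S.G k' / S.NN R k' j' * (1 / S.pr x.2) * S.W k0 R (n / x.1 / x.2) := by
  obtain ⟨hq1, hq2, hq3⟩ := hQ
  have hWm := W_m_le S hR hW hk hk' hj hx
  rw [S.mem_act] at hx
  obtain ⟨hx, hxR⟩ := hx
  obtain ⟨h1, h2, h3, h4, h5, h6, h7, -, -⟩ := S.cand_facts hk hj hx
  set l := n / x.1 / x.2 with hl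
  have hm0 : x.2 ≠ 0 := by omega
  have hl0 : l ≠ 0 := by omega
  have hn1 : n / x.1 = x.2 * l := by rw [hl, Nat.mul_div_cancel' hq1]
  have hn2 : n = x.1 * (x.2 * l) := by rw [← hn1, Nat.mul_div_cancel' hxn]
  -- the multiplicity is one
  have hge := (cand_prime_ge S hk hj hx h1 (dvd_mul_right _ _)).1
  have hlq : l < x.1 := by
    have h8 : (l : ℝ) < x.1 := lt_of_lt_of_le hq3 hge
    exact_mod_cast h8
  have hfac : n.factorization x.1 = 1 := by
    have e1 : (x.2 * l).factorization x.1 = 0 := by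
      apply Nat.factorization_eq_zero_of_not_dvd
      intro hdvd
      rcases (Nat.Prime.dvd_mul h1).1 hdvd with h8 | h8
      · have := Nat.Coprime.eq_one_of_dvd h3 h8
        exact h1.one_lt.ne' this
      · exact absurd (Nat.le_of_dvd (Nat.pos_of_ne_zero hl0) h8) (by omega)
    rw [hn2, Nat.factorization_mul h1.ne_zero (mul_ne_zero hm0 hl0), Finsupp.add_apply, e1,
      h1.factorization_self]
  rw [hfac, Nat.cast_one, one_mul, hn1, S.W_mul k0 R hm0 hl0]
  have hpr := S.pr_pos hm0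
  have hba := S.base_pos hm0
  have hN := S.NN_nonneg R k' j'
  have hG := S.G_nonneg k'
  have hWl := S.W_nonneg k0 R l
  have e2 : S.wo R k' j' x.2 * S.base x.2 = S.G k' / S.NN R k' j' * (1 / S.pr x.2) := by
    unfold Sys.wo
    rcases eq_or_lt_of_le hN with h8 | h8
    · rw [← h8]
      simp
    · field_simp
  have hwo := S.wo_nonneg R k' j' x.2
  calc 2 * S.wo R k' j' x.2 * (S.W k0 R x.2 * S.W k0 R l)
      ≤ 2 * S.wo R k' j' x.2 * (2 * S.base x.2 * S.W k0 R l) := by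
        apply mul_le_mul_of_nonneg_left _ (by positivity)
        exact mul_le_mul_of_nonneg_right hWm hWl
    _ = 4 * (S.wo R k' j' x.2 * S.base x.2) * S.W k0 R l := by ring
    _ = _ := by
        rw [e2]
        ring

theorem HT_le {k0 : ℕ} {R : Set ℕ} (hR : S.Good k0 R)
    (hW : ∀ p : ℕ, p.Prime → 0 ≤ S.Wp k0 R p ∧ S.Wp k0 R p ≤ S.Fh k0 R p)
    (hk0 : 100 ≤ k0) (hK : S.K ≤ k0) {k j : ℕ} (hj : j < nc S.d k) :
    S.HT k0 R k j S.Q3 ≤ ∑ l ∈ Finset.Ico 2 (2 ^ (k + 1)), S.W k0 R l *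
      ∑ k' ∈ S.hvy k0 k, ∑ j' ∈ S.badc k', ∑ x ∈ S.act R k' j',
      (if (x.1 * x.2 * l ∈ cell S.d k j ∧
          (l : ℝ) < (2 : ℝ) ^ ((S.u (S.cls k' j') + S.c) * k'))
        then 4 * S.G k' / S.NN R k' j' * (1 / S.pr x.2) else 0) := by
  have e1 : S.HT k0 R k j S.Q3 = ∑ k' ∈ S.hvy k0 k, ∑ j' ∈ S.badc k', ∑ x ∈ S.act R k' j',
      ∑ n ∈ (cell S.d k j).filter (fun n => x.1 ∣ n ∧ S.Q3 (k', j') n x),
        (n.factorization x.1 : ℝ) * (2 * S.wo R k' j' x.2 * S.W k0 R (n / x.1)) := by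
    unfold Sys.HT
    simp only [Finset.sum_filter]
    rw [Finset.sum_comm]
    refine Finset.sum_congr rfl fun k' _ => ?_
    rw [Finset.sum_comm]
    refine Finset.sum_congr rfl fun j' _ => ?_
    rw [Finset.sum_comm]
  have e2 : ∑ l ∈ Finset.Ico 2 (2 ^ (k + 1)), S.W k0 R l *
      ∑ k' ∈ S.hvy k0 k, ∑ j' ∈ S.badc k', ∑ x ∈ S.act R k' j',
      (if (x.1 * x.2 * l ∈ cell S.d k j ∧
          (l : ℝ) < (2 : ℝ) ^ ((S.u (S.cls k' j') + S.c) * k'))
        then 4 * S.G k' / S.NN R k' j' * (1 / S.pr x.2) else 0) =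
      ∑ k' ∈ S.hvy k0 k, ∑ j' ∈ S.badc k', ∑ x ∈ S.act R k' j',
      ∑ l ∈ (Finset.Ico 2 (2 ^ (k + 1))).filter (fun l => x.1 * x.2 * l ∈ cell S.d k j ∧
          (l : ℝ) < (2 : ℝ) ^ ((S.u (S.cls k' j') + S.c) * k')),
        4 * S.G k' / S.NN R k' j' * (1 / S.pr x.2) * S.W k0 R l := by
    simp only [Finset.mul_sum, Finset.sum_filter]
    rw [Finset.sum_comm]
    refine Finset.sum_congr rfl fun k' _ => ?_
    rw [Finset.sum_comm]
    refine Finset.sum_congr rfl fun j' _ => ?_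
    rw [Finset.sum_comm]
    refine Finset.sum_congr rfl fun x _ => ?_
    refine Finset.sum_congr rfl fun l _ => ?_
    split_ifs <;> ring
  rw [e1, e2]
  refine Finset.sum_le_sum fun k' hk' => Finset.sum_le_sum fun j' hj' =>
    Finset.sum_le_sum fun x hx => ?_
  have hk'0 : k0 ≤ k' := by
    unfold Sys.hvy at hk'
    rw [Finset.mem_Ico] at hk'
    exact le_trans (le_max_left _ _) hk'.1
  have hxc := S.cand_facts (hK.trans hk'0) hj' ((S.mem_act).1 hx).1
  obtain ⟨h1, h2, h3, h4, h5, h6, h7, -, -⟩ := hxc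
  have hm0 : x.2 ≠ 0 := by omega
  have hfac : ∀ n ∈ (cell S.d k j).filter (fun n => x.1 ∣ n ∧ S.Q3 (k', j') n x),
      n = x.1 * x.2 * (n / x.1 / x.2) := by
    intro n hn
    rw [Finset.mem_filter] at hn
    obtain ⟨-, ha, hb, -⟩ := hn
    rw [mul_assoc, Nat.mul_div_cancel' hb, Nat.mul_div_cancel' ha]
  have hstep1 : ∑ n ∈ (cell S.d k j).filter (fun n => x.1 ∣ n ∧ S.Q3 (k', j') n x),
        (n.factorization x.1 : ℝ) * (2 * S.wo R k' j' x.2 * S.W k0 R (n / x.1)) ≤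
      ∑ n ∈ (cell S.d k j).filter (fun n => x.1 ∣ n ∧ S.Q3 (k', j') n x),
        4 * S.G k' / S.NN R k' j' * (1 / S.pr x.2) * S.W k0 R (n / x.1 / x.2) := by
    refine Finset.sum_le_sum fun n hn => ?_
    rw [Finset.mem_filter] at hn
    have hn0 : n ≠ 0 := by
      have := cell_ge hn.1
      have h9 : 0 < 2 ^ k := by positivity
      omega
    exact term_le S hR hW (hK.trans hk'0) (by omega) hj' hx hn0 hn.2.1 hn.2.2
  refine hstep1.trans ?_
  have hinj : Set.InjOn (fun n : ℕ => n / x.1 / x.2)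
      ((cell S.d k j).filter (fun n => x.1 ∣ n ∧ S.Q3 (k', j') n x) : Set ℕ) := by
    intro n hn m hm hnm
    simp only at hnm
    rw [hfac n hn, hfac m hm, hnm]
  have hsum : ∑ n ∈ (cell S.d k j).filter (fun n => x.1 ∣ n ∧ S.Q3 (k', j') n x),
        4 * S.G k' / S.NN R k' j' * (1 / S.pr x.2) * S.W k0 R (n / x.1 / x.2) =
      ∑ l ∈ ((cell S.d k j).filter (fun n => x.1 ∣ n ∧ S.Q3 (k', j') n x)).image
        (fun n : ℕ => n / x.1 / x.2),
        4 * S.G k' / S.NN R k' j' * (1 / S.pr x.2) * S.W k0 R l := by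
    rw [Finset.sum_image hinj]
  rw [hsum]
  apply Finset.sum_le_sum_of_subset_of_nonneg
  · intro l hl
    rw [Finset.mem_image] at hl
    obtain ⟨n, hn, rfl⟩ := hl
    have hn2 := hfac n hn
    rw [Finset.mem_filter] at hn ⊢
    obtain ⟨hn1, hdvd, hq1, hq2, hq3⟩ := hn
    refine ⟨?_, ?_, hq3⟩
    · rw [Finset.mem_Ico]
      refine ⟨hq2, ?_⟩
      refine lt_of_le_of_lt ?_ (cell_lt S.d_pos hj hn1)
      exact (Nat.div_le_self _ _).trans (Nat.div_le_self _ _)
    · rw [← hn2]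
      exact hn1
  · intro l _ _
    have := S.pr_nonneg x.2
    have := S.G_nonneg k'
    have := S.NN_nonneg R k' j'
    have := S.W_nonneg k0 R l
    positivity

end H3

/-- the Prop `H3` -/
theorem h3 (hWp : WpLe) (hSW : SumW) : Pool.Agent.Helper16.KS.H3 := by
  intro S
  obtain ⟨K1, hK1⟩ := hWp S
  obtain ⟨C, K2, hK2⟩ := hSW S
  obtain ⟨N, hN⟩ := exists_nat_ge (20 * (2048000 * S.C1 * |C|))
  refine ⟨K1 + K2 + S.K + N + 6010, ?_⟩
  intro k0 hk0 R hR k hk j hj
  have hW := hK1 k0 (by omega) R hR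
  have hS := hK2 k0 (by omega) R hR
  have hC1 : 0 < S.C1 := by linarith [S.C1_ge]
  have hGk := S.G_nonneg k
  have hk0R : (0 : ℝ) < k0 := by exact_mod_cast (by omega : 0 < k0)
  refine (H3.HT_le S hR hW (by omega) (by omega) hj).trans ?_
  have hterm : ∀ l ∈ Finset.Ico 2 (2 ^ (k + 1)), S.W k0 R l *
      ∑ k' ∈ S.hvy k0 k, ∑ j' ∈ S.badc k', ∑ x ∈ S.act R k' j',
      (if (x.1 * x.2 * l ∈ cell S.d k j ∧
          (l : ℝ) < (2 : ℝ) ^ ((S.u (S.cls k' j') + S.c) * k'))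
        then 4 * S.G k' / S.NN R k' j' * (1 / S.pr x.2) else 0) ≤
      2048000 * S.C1 * S.G k * (S.W k0 R l * (l : ℝ) ^ (-S.s) * (1 + Real.log l) ^ 2) := by
    intro l hl
    rw [Finset.mem_Ico] at hl
    have hWl := S.W_nonneg k0 R l
    have hlog : 0 ≤ Real.log (l : ℝ) := Real.log_natCast_nonneg l
    have hRHS : 0 ≤ 2048000 * S.C1 * S.G k *
        (S.W k0 R l * (l : ℝ) ^ (-S.s) * (1 + Real.log l) ^ 2) := by positivity
    by_cases hsm : (l : ℝ) < (2 : ℝ) ^ ((k0 : ℝ) / 5)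
    · rw [H3.W_zero S hW hl.1 hsm, zero_mul]
      simp
    · have hl32 : 32 ≤ l := by
        rw [not_lt] at hsm
        have h1 : (2 : ℝ) ^ (5 : ℝ) ≤ l := by
          refine le_trans (Real.rpow_le_rpow_of_exponent_le (by norm_num) ?_) hsm
          have : (25 : ℝ) ≤ k0 := by exact_mod_cast (by omega : 25 ≤ k0)
          linarith
        rw [show (5 : ℝ) = ((5 : ℕ) : ℝ) by norm_num, Real.rpow_natCast] at h1
        have h2 : (32 : ℝ) ≤ l := by
          refine le_trans ?_ h1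
          norm_num
        exact_mod_cast h2
      set B : ℝ := 1024000 * S.C1 * (S.G k * ((l : ℝ) ^ (-S.s) * (1 + Real.log l))) with hB
      have hB0 : 0 ≤ B := by positivity
      have hinner : ∑ k' ∈ S.hvy k0 k, ∑ j' ∈ S.badc k', ∑ x ∈ S.act R k' j',
          (if (x.1 * x.2 * l ∈ cell S.d k j ∧
            (l : ℝ) < (2 : ℝ) ^ ((S.u (S.cls k' j') + S.c) * k'))
            then 4 * S.G k' / S.NN R k' j' * (1 / S.pr x.2) else 0) ≤ 2 * B := by
        have h1 : ∀ k' ∈ S.hvy k0 k, ∑ j' ∈ S.badc k', ∑ x ∈ S.act R k' j',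
          (if (x.1 * x.2 * l ∈ cell S.d k j ∧
            (l : ℝ) < (2 : ℝ) ^ ((S.u (S.cls k' j') + S.c) * k'))
            then 4 * S.G k' / S.NN R k' j' * (1 / S.pr x.2) else 0) ≤
            (if (k' + Nat.log 2 l = k ∨ k' + Nat.log 2 l + 1 = k) then B else 0) := by
          intro k' hk'
          have hk'0 : k0 ≤ k' := by
            unfold Sys.hvy at hk'
            rw [Finset.mem_Ico] at hk'
            exact le_trans (le_max_left _ _) hk'.1
          exact H3.inner_le S hR (by omega) (by omega) hj hk'0 hl32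
        refine (Finset.sum_le_sum h1).trans ?_
        rw [← Finset.sum_filter, Finset.sum_const, nsmul_eq_mul]
        have hcard : ((S.hvy k0 k).filter
            (fun k' => k' + Nat.log 2 l = k ∨ k' + Nat.log 2 l + 1 = k)).card ≤ 2 := by
          refine (Finset.card_le_card (t := {k - Nat.log 2 l, k - Nat.log 2 l - 1}) ?_).trans
            Finset.card_le_two
          intro k' hk'
          rw [Finset.mem_filter] at hk'
          rw [Finset.mem_insert, Finset.mem_singleton]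
          omega
        have hcard' : (((S.hvy k0 k).filter
            (fun k' => k' + Nat.log 2 l = k ∨ k' + Nat.log 2 l + 1 = k)).card : ℝ) ≤ 2 := by
          exact_mod_cast hcard
        exact mul_le_mul_of_nonneg_right hcard' hB0
      refine (mul_le_mul_of_nonneg_left hinner hWl).trans ?_
      have h2 : S.W k0 R l * (2 * B) =
          2048000 * S.C1 * S.G k * (S.W k0 R l * (l : ℝ) ^ (-S.s) * (1 + Real.log l)) := by
        rw [hB]
        ring
      rw [h2]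
      apply mul_le_mul_of_nonneg_left _ (by positivity)
      apply mul_le_mul_of_nonneg_left _ (by positivity)
      nlinarith
  refine (Finset.sum_le_sum hterm).trans ?_
  rw [← Finset.mul_sum]
  have hsum := hS (Finset.Ico 2 (2 ^ (k + 1))) (fun n hn => (Finset.mem_Ico.1 hn).1)
  have h3 : C / k0 ≤ |C| / k0 := div_le_div_of_nonneg_right (le_abs_self C) hk0R.le
  have h4 : 2048000 * S.C1 * (|C| / k0) ≤ 1 / 20 := by
    rw [← mul_div_assoc, div_le_div_iff₀ hk0R (by norm_num)]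
    have h5 : (N : ℝ) ≤ k0 := by exact_mod_cast (by omega : N ≤ k0)
    linarith
  calc 2048000 * S.C1 * S.G k * ∑ i ∈ Finset.Ico 2 (2 ^ (k + 1)),
        S.W k0 R i * (i : ℝ) ^ (-S.s) * (1 + Real.log i) ^ 2
      ≤ 2048000 * S.C1 * S.G k * (|C| / k0) := by
        apply mul_le_mul_of_nonneg_left _ (by positivity)
        exact hsum.trans h3
    _ = S.G k * (2048000 * S.C1 * (|C| / k0)) := by ring
    _ ≤ S.G k * (1 / 20) := mul_le_mul_of_nonneg_left h4 hGk
    _ = S.G k / 20 := by ring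

end Pool.Agent.Helper15.KS
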