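import Pool.Agent.Helper15.KS.Ord
import Pool.Agent.Helper16.KS.St

/-!
# Project KS (MP_768c9c_nt): Prop `OrdWin`
-/

set_option autoImplicit false

open Finset Filter Topology

namespace Pool.Agent.Helper15.KS

open Pool.Agent.Helper16.KS

theorem CM_one (g : ℕ → ℝ) : CM g 1 = 1 := by simp [CM]

theorem CM_prime (g : ℕ → ℝ) {p : ℕ} (hp : p.Prime) : CM g p = g p := by
  simp [CM, Nat.primeFactorsList_prime hp]

theorem CM_mul (g : ℕ → ℝ) {a b : ℕ} (ha : 0 < a) (hb : 0 < b) :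
    CM g (a * b) = CM g a * CM g b := by
  unfold CM
  have h := Nat.perm_primeFactorsList_mul ha.ne' hb.ne'
  rw [(h.map g).prod_eq, List.map_append, List.prod_append]

theorem CM_nonneg {g : ℕ → ℝ} (hg : ∀ p : ℕ, p.Prime → 0 ≤ g p) (n : ℕ) : 0 ≤ CM g n := by
  unfold CM
  apply List.prod_nonneg
  intro x hx
  rw [List.mem_map] at hx
  obtain ⟨p, hp, rfl⟩ := hx
  exact hg p (Nat.prime_of_mem_primeFactorsList hp)

theorem s_le_one (S : Sys) : S.s ≤ 1 := by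
  have h1 := S.d_le
  have h2 := S.c_le
  have h3 := S.eta_le
  have h4 := S.del_le
  unfold Sys.s
  have h5 : S.d ≤ 1 := by
    have : S.c ≤ 1 := by linarith
    have h6 : S.c / 10 ^ 5 ≤ 1 := by
      rw [div_le_iff₀ (by norm_num)]
      linarith
    linarith
  linarith

theorem ordMaj (S : Sys) {C : ℝ} {k0 : ℕ}
    (h : ∀ p : ℕ, p.Prime →
      0 ≤ S.ordw k0 p ∧ S.ordw k0 p ≤ C * ((p : ℝ) ^ (S.s - 1) / Real.log p ^ 3)) :
    OrdMaj (6 * |C|) S.s 3 (2 ^ (k0 - 1)) (CM (fun p => 6 * S.ordw k0 p)) where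
  one := CM_one _
  mul := fun a b ha hb => CM_mul _ ha hb
  nonneg := CM_nonneg fun p hp => mul_nonneg (by norm_num) (h p hp).1
  small := by
    intro p hp hlt
    rw [CM_prime _ hp]
    have : S.ordw k0 p = 0 := by
      unfold Sys.ordw
      rw [if_pos hlt]
    rw [this, mul_zero]
  le := by
    intro p hp
    rw [CM_prime _ hp]
    have h1 := (h p hp).2
    have h2 : 0 ≤ (p : ℝ) ^ (S.s - 1) / Real.log p ^ 3 := by
      have : 0 ≤ Real.log (p : ℝ) := Real.log_natCast_nonneg p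
      positivity
    have h3 : C * ((p : ℝ) ^ (S.s - 1) / Real.log p ^ 3) ≤
        |C| * ((p : ℝ) ^ (S.s - 1) / Real.log p ^ 3) :=
      mul_le_mul_of_nonneg_right (le_abs_self C) h2
    calc 6 * S.ordw k0 p ≤ 6 * (|C| * ((p : ℝ) ^ (S.s - 1) / Real.log p ^ 3)) := by linarith
      _ = _ := by ring

theorem log_pow_ge {k0 : ℕ} (hk : 8 ≤ k0) : (k0 : ℝ) / 2 ≤ Real.log ((2 : ℝ) ^ (k0 - 1) / 2) := by
  have h1 : ((2 : ℝ) ^ (k0 - 1) / 2) = 2 ^ (k0 - 2) := by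
    obtain ⟨m, rfl⟩ : ∃ m, k0 = m + 2 := ⟨k0 - 2, by omega⟩
    simp only [show m + 2 - 1 = m + 1 by omega, show m + 2 - 2 = m by omega]
    rw [pow_succ]
    ring
  rw [h1, Real.log_pow]
  have h2 := Real.log_two_gt_d9
  have h3 : (8 : ℝ) ≤ k0 := by exact_mod_cast hk
  have h4 : ((k0 - 2 : ℕ) : ℝ) = (k0 : ℝ) - 2 := by
    rw [Nat.cast_sub (by omega)]
    norm_num
  rw [h4]
  nlinarith

theorem ordWin (hOL : OrdLe) : OrdWin := by
  intro S
  obtain ⟨C, K1, hC⟩ := hOL S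
  obtain ⟨B, hB, hbt⟩ := bt
  obtain ⟨N, hN⟩ := exists_nat_ge (6 * |C|)
  set C0 : ℝ := 6 * |C| with hC0
  have hC0' : 0 ≤ C0 := by positivity
  refine ⟨2 * (C0 ^ 2 * 8 ^ (2 * 3) + 15 * B * C0 * 2 ^ 3 * C0) + 15 * B * C0 * 2 ^ 3,
    K1 + 4 * (N + 1) + 130, ?_⟩
  intro k0 hk0 x h hxh hhx hx2
  have hk0' : 130 ≤ k0 := by omega
  have hmaj := ordMaj S (hC k0 (by omega))
  rw [← hC0] at hmaj
  have hlP := log_pow_ge (k0 := k0) (by omega)
  have hk0R : (130 : ℝ) ≤ k0 := by exact_mod_cast hk0'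
  have hpow : (2 : ℝ) ^ 129 ≤ 2 ^ (k0 - 1) := pow_le_pow_right₀ (by norm_num) (by omega)
  have hpowN : 2 ^ 129 ≤ 2 ^ (k0 - 1) := Nat.pow_le_pow_right (by norm_num) (by omega)
  have hcast : ((2 ^ (k0 - 1) : ℕ) : ℝ) = 2 ^ (k0 - 1) := by push_cast; rfl
  have hlog : C0 ≤ (Real.log ((2 ^ (k0 - 1) : ℕ) : ℝ) / 2) ^ 3 := by
    rw [hcast]
    have h1 : Real.log ((2 : ℝ) ^ (k0 - 1) / 2) ≤ Real.log ((2 : ℝ) ^ (k0 - 1)) := by
      apply Real.log_le_log (by positivity)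
      have : (0 : ℝ) < 2 ^ (k0 - 1) := by positivity
      linarith
    have h2 : (N : ℝ) + 1 ≤ k0 / 4 := by
      have : ((4 * (N + 1) : ℕ) : ℝ) ≤ k0 := by exact_mod_cast (by omega)
      push_cast at this
      linarith
    have h3 : (N : ℝ) + 1 ≤ Real.log ((2 : ℝ) ^ (k0 - 1)) / 2 := by linarith
    have h4 : (0 : ℝ) ≤ N := Nat.cast_nonneg N
    have h5 : (N : ℝ) + 1 ≤ (Real.log ((2 : ℝ) ^ (k0 - 1)) / 2) ^ 3 :=
      le_trans h3 (le_self_pow₀ (by linarith) (by norm_num))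
    linarith
  have hs := s_le_one S
  have hx0 : (0 : ℝ) < x := by exact_mod_cast (by omega : 0 < x)
  have hlx0 : 0 < Real.log (x : ℝ) := Real.log_pos (by exact_mod_cast (by omega : 1 < x))
  have hG0 : 0 ≤ (h : ℝ) * (x : ℝ) ^ (S.s - 1) / Real.log x ^ 4 := by positivity
  have hfil : (Finset.Ico x (x + h)).filter (fun n => ¬ n.Prime) =
      (Finset.Ico x (x + h)).filter (fun n => 2 ≤ n ∧ ¬ n.Prime) := by
    apply Finset.filter_congr
    intro n hn
    rw [Finset.mem_Ico] at hn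
    constructor
    · intro h1; exact ⟨by omega, h1⟩
    · intro h1; exact h1.2
  rw [hfil]
  rcases Nat.lt_or_ge (2 * x) (2 ^ (k0 - 1)) with hsm | hla
  · -- everything vanishes
    have hz : ∀ n ∈ Finset.Ico x (x + h), CM (fun p => 6 * S.ordw k0 p) n = 0 := by
      intro n hn
      rw [Finset.mem_Ico] at hn
      exact hmaj.zero_of_lt (by omega) (by omega)
    constructor
    · rw [Finset.sum_eq_zero hz]
      exact mul_nonneg (by positivity) hG0
    · rw [Finset.sum_eq_zero fun n hn => hz n (Finset.mem_of_mem_filter n hn)]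
      exact mul_nonneg (by positivity) hG0
  · have hx120 : 2 ^ 120 ≤ x := by
      have h1 : 2 ^ 129 ≤ 2 * x := le_trans hpowN hla
      have h2 : (2 : ℕ) ^ 129 = 2 * (2 ^ 8 * 2 ^ 120) := by norm_num
      omega
    have hP4 : 4 ≤ 2 ^ (k0 - 1) := le_trans (by norm_num) hpowN
    have hlx : (k0 : ℝ) / 2 ≤ Real.log x := by
      refine le_trans hlP (Real.log_le_log (by positivity) ?_)
      have : ((2 ^ (k0 - 1) : ℕ) : ℝ) ≤ ((2 * x : ℕ) : ℝ) := by exact_mod_cast hla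
      push_cast at this
      linarith
    have hlP1 : (k0 : ℝ) / 2 ≤ Real.log (((2 ^ (k0 - 1) : ℕ) : ℝ) - 1) := by
      rw [hcast]
      refine le_trans hlP (Real.log_le_log (by positivity) ?_)
      have h1 : (2 : ℝ) ≤ 2 ^ (k0 - 1) := le_trans (by norm_num) hpow
      linarith
    have hA : (2 : ℕ) ≤ 3 := by norm_num
    have e1 := composite_level hB hbt hmaj hC0' hs hA hP4 hlog hx120 hxh
    have e2 := total_level hB hbt hmaj hC0' hs hA hP4 hlog hx120 hxh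
    have hk0pos : (0 : ℝ) < k0 := by linarith
    have f1 : C0 ^ 2 * 8 ^ (2 * 3) / Real.log x ≤ 2 * (C0 ^ 2 * 8 ^ (2 * 3)) / k0 := by
      rw [div_le_div_iff₀ hlx0 hk0pos]
      have : 0 ≤ C0 ^ 2 * 8 ^ (2 * 3) := by positivity
      nlinarith [mul_le_mul_of_nonneg_left hlx this]
    have f2 : 15 * B * C0 * 2 ^ 3 * (C0 / Real.log (((2 ^ (k0 - 1) : ℕ) : ℝ) - 1)) ≤
        2 * (15 * B * C0 * 2 ^ 3 * C0) / k0 := by
      rw [← mul_div_assoc, div_le_div_iff₀ (by linarith) hk0pos]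
      have : 0 ≤ 15 * B * C0 * 2 ^ 3 * C0 := by positivity
      nlinarith [mul_le_mul_of_nonneg_left hlP1 this]
    have f3 : C0 ^ 2 * 8 ^ (2 * 3) / Real.log x +
        15 * B * C0 * 2 ^ 3 * (C0 / Real.log (((2 ^ (k0 - 1) : ℕ) : ℝ) - 1)) ≤
        2 * (C0 ^ 2 * 8 ^ (2 * 3) + 15 * B * C0 * 2 ^ 3 * C0) / k0 := by
      refine le_trans (add_le_add f1 f2) (le_of_eq ?_)
      ring
    have f4 : 2 * (C0 ^ 2 * 8 ^ (2 * 3) + 15 * B * C0 * 2 ^ 3 * C0) / k0 ≤
        2 * (C0 ^ 2 * 8 ^ (2 * 3) + 15 * B * C0 * 2 ^ 3 * C0) := by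
      apply div_le_self (by positivity)
      linarith
    have f5 : 0 ≤ 15 * B * C0 * 2 ^ 3 := by positivity
    constructor
    · refine le_trans e2 ?_
      apply mul_le_mul_of_nonneg_right _ hG0
      linarith
    · refine le_trans e1 ?_
      apply mul_le_mul_of_nonneg_right _ hG0
      refine le_trans f3 ?_
      apply div_le_div_of_nonneg_right _ hk0pos.le
      linarith

end Pool.Agent.Helper15.KS
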