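import Pool.Agent.Helper16.KS.Basic

/-!
# Project KS (MP_768c9c_nt): Prop `H3`, numerical part
-/

set_option autoImplicit false
open scoped Classical

namespace Pool.Agent.Helper15.KS.H3

open Pool.Agent.Helper16.KS

/-- left end of a window: `wl l a ≤ y ↔ a ≤ y * l` -/
def wl (l a : ℕ) : ℕ := (a + l - 1) / l

theorem wl_le_iff {l a y : ℕ} (hl : 0 < l) : wl l a ≤ y ↔ a ≤ y * l := by
  unfold wl
  have h1 : (a + l - 1) / l ≤ y ↔ (a + l - 1) / l < y + 1 := Nat.lt_succ_iff.symm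
  rw [h1, Nat.div_lt_iff_lt_mul hl, add_mul, one_mul]
  omega

theorem lt_wl_iff {l a y : ℕ} (hl : 0 < l) : y < wl l a ↔ y * l < a := by
  rw [← not_le, wl_le_iff hl, not_le]

theorem wl_ge {l a : ℕ} (hl : 0 < l) : (a : ℝ) / l ≤ wl l a := by
  have h : a ≤ wl l a * l := (wl_le_iff hl).1 le_rfl
  have hl' : (0 : ℝ) < l := by exact_mod_cast hl
  rw [div_le_iff₀ hl']
  exact_mod_cast h

theorem wl_lt {l a : ℕ} (hl : 0 < l) : (wl l a : ℝ) < a / l + 1 := by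
  have h : wl l a * l ≤ a + l - 1 := Nat.div_mul_le_self _ _
  have h2 : wl l a * l < a + l := by omega
  have hl' : (0 : ℝ) < l := by exact_mod_cast hl
  have h3 : (wl l a : ℝ) * l < a + l := by exact_mod_cast h2
  rw [← sub_lt_iff_lt_add, lt_div_iff₀ hl', sub_mul, one_mul]
  linarith

theorem wl_mono {l a b : ℕ} (hab : a ≤ b) : wl l a ≤ wl l b := by
  unfold wl
  exact Nat.div_le_div_right (by omega)

theorem log_facts {l : ℕ} (hl : 32 ≤ l) :
    (2 : ℝ) ^ ((Nat.log 2 l : ℕ) : ℝ) ≤ l ∧ (l : ℝ) < (2 : ℝ) ^ (((Nat.log 2 l : ℕ) : ℝ) + 1) ∧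
      5 ≤ Nat.log 2 l := by
  refine ⟨?_, ?_, ?_⟩
  · rw [Real.rpow_natCast]
    exact_mod_cast Nat.pow_log_le_self 2 (by omega)
  · have h : l < 2 ^ (Nat.log 2 l + 1) := Nat.lt_pow_succ_log_self (by norm_num) l
    have h2 : (((Nat.log 2 l : ℕ) : ℝ) + 1) = ((Nat.log 2 l + 1 : ℕ) : ℝ) := by push_cast; rfl
    rw [h2, Real.rpow_natCast]
    exact_mod_cast h
  · exact Nat.le_log_of_pow_le (by norm_num) (by norm_num; exact hl)

theorem numeric (S : Sys) {k k' l : ℕ} (hk' : 6010 ≤ k') (hl : 32 ≤ l)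
    (hlt : (l : ℝ) < (2 : ℝ) ^ (0.226 * (k' : ℝ)))
    (hk : k' + Nat.log 2 l = k ∨ k' + Nat.log 2 l + 1 = k) :
    (2 : ℝ) ^ (0.38 * (k' : ℝ) + 1) ≤ (2 : ℝ) ^ ec S.d k / l ∧
    (2 : ℝ) ^ ec S.d k / l + 1 ≤ 2 ^ ec S.d k' ∧
    ((2 : ℝ) ^ (0.498 * (k' : ℝ) + 1) ≤ (2 : ℝ) ^ ec S.d k / l ∨ (k' : ℝ) ≤ 500 * Real.log l) ∧
    k ≤ 2 * k' ∧
    (2 : ℝ) ^ ((S.s - 1) * k') ≤ 2 * ((2 : ℝ) ^ ((S.s - 1) * k) * (l : ℝ) ^ (1 - S.s)) := by
  obtain ⟨g1, g2, g3⟩ := log_facts hl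
  set lam : ℕ := Nat.log 2 l with hlam
  have hl0 : (0 : ℝ) < l := by exact_mod_cast (by omega : 0 < l)
  have hd0 := S.d_pos
  have hd := S.d_le'
  have hd' : S.d ≤ 1 / 10 ^ 7 := by
    refine hd.trans ?_
    norm_num
  have hk'R : (6010 : ℝ) ≤ k' := by exact_mod_cast hk'
  have hlamR : (5 : ℝ) ≤ lam := by exact_mod_cast g3
  have hlam2 : (lam : ℝ) < 0.226 * k' :=
    (Real.rpow_lt_rpow_left_iff (by norm_num : (1 : ℝ) < 2)).mp (g1.trans_lt hlt)
  have hkle : (k : ℝ) ≤ k' + lam + 1 := by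
    rcases hk with h | h
    · rw [← h]; push_cast; linarith
    · rw [← h]; push_cast; linarith
  have hkge : (k' : ℝ) + lam ≤ k := by
    rcases hk with h | h
    · rw [← h]; push_cast; linarith
    · rw [← h]; push_cast; linarith
  -- the exponents
  have e1 : (k : ℝ) * (1/2 - S.d) - 1 < ec S.d k := Nat.sub_one_lt_floor _
  have e2 : (ec S.d k : ℝ) ≤ (k : ℝ) * (1/2 - S.d) := by
    apply Nat.floor_le
    apply mul_nonneg (Nat.cast_nonneg _)
    norm_num at hd'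
    linarith
  have e3 : (k' : ℝ) * (1/2 - S.d) - 1 < ec S.d k' := Nat.sub_one_lt_floor _
  norm_num at hd'
  have f1 : (k' : ℝ) * S.d ≤ k' * (1 / 10000000) := mul_le_mul_of_nonneg_left hd' (by linarith)
  have f2 : (lam : ℝ) * S.d ≤ lam * (1 / 10000000) := mul_le_mul_of_nonneg_left hd' (by linarith)
  have f3 : 0 ≤ (lam : ℝ) * S.d := by positivity
  have f4 : ((k' : ℝ) + lam) * (1/2 - S.d) ≤ (k : ℝ) * (1/2 - S.d) :=
    mul_le_mul_of_nonneg_right hkge (by linarith)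
  have f5 : (k : ℝ) * (1/2 - S.d) ≤ ((k' : ℝ) + lam + 1) * (1/2 - S.d) :=
    mul_le_mul_of_nonneg_right hkle (by linarith)
  have hlow : (2 : ℝ) ^ ((k' : ℝ) * (1/2 - S.d) - lam * (1/2 + S.d) - 2) ≤
      (2 : ℝ) ^ ec S.d k / l := by
    rw [le_div_iff₀ hl0, ← Real.rpow_natCast 2 (ec S.d k)]
    calc (2 : ℝ) ^ ((k' : ℝ) * (1/2 - S.d) - lam * (1/2 + S.d) - 2) * l
        ≤ (2 : ℝ) ^ ((k' : ℝ) * (1/2 - S.d) - lam * (1/2 + S.d) - 2) *
            (2 : ℝ) ^ ((lam : ℝ) + 1) := mul_le_mul_of_nonneg_left g2.le (by positivity)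
      _ = (2 : ℝ) ^ (((k' : ℝ) * (1/2 - S.d) - lam * (1/2 + S.d) - 2) + ((lam : ℝ) + 1)) :=
          (Real.rpow_add (by norm_num) _ _).symm
      _ ≤ (2 : ℝ) ^ (ec S.d k : ℝ) := by
          apply Real.rpow_le_rpow_of_exponent_le (by norm_num)
          nlinarith
  refine ⟨?_, ?_, ?_, ?_, ?_⟩
  · refine le_trans (Real.rpow_le_rpow_of_exponent_le (by norm_num) ?_) hlow
    nlinarith
  · have hE : (1 : ℝ) ≤ ec S.d k' := by nlinarith
    have h1 : (2 : ℝ) ^ ec S.d k / l ≤ (2 : ℝ) ^ ((ec S.d k' : ℝ) - 1) := by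
      rw [div_le_iff₀ hl0, ← Real.rpow_natCast 2 (ec S.d k)]
      calc (2 : ℝ) ^ (ec S.d k : ℝ) ≤ (2 : ℝ) ^ (((ec S.d k' : ℝ) - 1) + lam) := by
            apply Real.rpow_le_rpow_of_exponent_le (by norm_num)
            nlinarith
        _ = (2 : ℝ) ^ ((ec S.d k' : ℝ) - 1) * (2 : ℝ) ^ (lam : ℝ) :=
            Real.rpow_add (by norm_num) _ _
        _ ≤ (2 : ℝ) ^ ((ec S.d k' : ℝ) - 1) * l := mul_le_mul_of_nonneg_left g1 (by positivity)
    have h2 : (1 : ℝ) ≤ (2 : ℝ) ^ ((ec S.d k' : ℝ) - 1) :=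
      Real.one_le_rpow (by norm_num) (by linarith)
    have h3 : (2 : ℝ) ^ ec S.d k' = 2 * (2 : ℝ) ^ ((ec S.d k' : ℝ) - 1) := by
      rw [← Real.rpow_natCast 2 (ec S.d k')]
      rw [show ((ec S.d k' : ℕ) : ℝ) = 1 + ((ec S.d k' : ℝ) - 1) by ring,
        Real.rpow_add (by norm_num), Real.rpow_one]
      ring_nf
    rw [h3]
    linarith
  · by_cases hc : (k' : ℝ) ≤ 500 * Real.log l
    · exact Or.inr hc
    · left
      rw [not_le] at hc
      have h1 : (lam : ℝ) * Real.log 2 ≤ Real.log l := by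
        have h2 := Real.log_le_log (by positivity) g1
        rwa [Real.log_rpow (by norm_num)] at h2
      have h3 := Real.log_two_gt_d9
      have h4 : (lam : ℝ) * 0.6931 ≤ Real.log l := by
        refine le_trans ?_ h1
        apply mul_le_mul_of_nonneg_left _ (by linarith)
        linarith
      have h5 : (lam : ℝ) * 346.55 < k' := by linarith
      refine le_trans (Real.rpow_le_rpow_of_exponent_le (by norm_num) ?_) hlow
      nlinarith
  · have h1 : (k : ℝ) ≤ 2 * k' := by linarith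
    exact_mod_cast h1
  · have hs0 := S.s_pos
    have hs1 := S.s_lt
    have hs2 : S.s < 1 := hs1.trans (by norm_num)
    calc (2 : ℝ) ^ ((S.s - 1) * k') ≤
          (2 : ℝ) ^ ((S.s - 1) * k + ((lam : ℝ) * (1 - S.s) + (1 - S.s))) := by
          apply Real.rpow_le_rpow_of_exponent_le (by norm_num)
          nlinarith
      _ = (2 : ℝ) ^ ((S.s - 1) * k) * (((2 : ℝ) ^ (lam : ℝ)) ^ (1 - S.s) * (2 : ℝ) ^ (1 - S.s)) := by
          rw [Real.rpow_add (by norm_num), Real.rpow_add (by norm_num), ← Real.rpow_mul (by norm_num)]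
      _ ≤ (2 : ℝ) ^ ((S.s - 1) * k) * ((l : ℝ) ^ (1 - S.s) * 2) := by
          apply mul_le_mul_of_nonneg_left _ (by positivity)
          apply mul_le_mul _ _ (by positivity) (by positivity)
          · exact Real.rpow_le_rpow (by positivity) g1 (by linarith)
          · calc (2 : ℝ) ^ (1 - S.s) ≤ (2 : ℝ) ^ (1 : ℝ) :=
                  Real.rpow_le_rpow_of_exponent_le (by norm_num) (by linarith)
              _ = 2 := Real.rpow_one _
      _ = _ := by ring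

end Pool.Agent.Helper15.KS.H3
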