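import Pool.Agent.Helper15.KS.H3a

/-!
# Project KS (MP_768c9c_nt): Prop `H3`, bounds for the weights
-/

set_option autoImplicit false
open scoped Classical

namespace Pool.Agent.Helper15.KS.H3

open Pool.Agent.Helper16.KS

variable (S : Sys)

/-- prime factors of candidates are large -/
theorem cand_prime_ge {k' j' : ℕ} (hk : S.K ≤ k') (hj : j' ∈ S.badc k') {x : ℕ × ℕ}
    (hx : x ∈ S.Cand k' j') {p : ℕ} (hp : p.Prime) (hpx : p ∣ x.1 * x.2) :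
    (2 : ℝ) ^ ((S.u (S.cls k' j') + S.c) * k') ≤ p ∧ (2 : ℝ) ^ ((k' : ℝ) / 5) ≤ p := by
  rw [S.mem_badc] at hj
  obtain ⟨-, -, -, -, -, h6, -⟩ := S.cand k' hk j' hj.1 hj.2 x hx
  have h := h6 p hp hpx
  have hp0 : (0 : ℝ) ≤ p := Nat.cast_nonneg p
  have hp1 : (1 : ℝ) ≤ p := by exact_mod_cast hp.one_lt.le
  have hdel := S.del_pos
  have hc := S.c_pos
  have hu := S.u_ge (S.cls k' j')
  have h1 : (p : ℝ) ^ (1/2 - S.del) ≤ (p : ℝ) ^ (1/2 : ℝ) :=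
    Real.rpow_le_rpow_of_exponent_le hp1 (by linarith)
  have h2 : (p : ℝ) ^ (1/2 : ℝ) ≤ p := by
    calc (p : ℝ) ^ (1/2 : ℝ) ≤ (p : ℝ) ^ (1 : ℝ) :=
          Real.rpow_le_rpow_of_exponent_le hp1 (by norm_num)
      _ = p := Real.rpow_one _
  refine ⟨h.trans (h1.trans h2), ?_⟩
  have h3 : (2 : ℝ) ^ ((k' : ℝ) / 10) ≤ (p : ℝ) ^ (1/2 : ℝ) := by
    refine le_trans (Real.rpow_le_rpow_of_exponent_le (by norm_num) ?_) (h.trans h1)
    have : (0 : ℝ) ≤ k' := Nat.cast_nonneg _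
    nlinarith
  calc (2 : ℝ) ^ ((k' : ℝ) / 5) = ((2 : ℝ) ^ ((k' : ℝ) / 10)) ^ (2 : ℝ) := by
        rw [← Real.rpow_mul (by norm_num)]
        congr 1
        ring
    _ ≤ ((p : ℝ) ^ (1/2 : ℝ)) ^ (2 : ℝ) := Real.rpow_le_rpow (by positivity) h3 (by norm_num)
    _ = p := by
        rw [← Real.rpow_mul hp0]
        norm_num

theorem gam_le {p : ℕ} (hp : 2 ^ 20 ≤ p) : S.gam p ≤ S.base p * (1 / 20) := by
  have hp0 : (0 : ℝ) < p := by
    have : 0 < p := lt_of_lt_of_le (by positivity) hp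
    exact_mod_cast this
  have hp1 : (1 : ℝ) ≤ p := by
    have : 1 ≤ p := le_trans (by norm_num) hp
    exact_mod_cast this
  have hp2 : (2 : ℝ) ^ (20 : ℝ) ≤ p := by
    rw [show (20 : ℝ) = ((20 : ℕ) : ℝ) by norm_num, Real.rpow_natCast]
    exact_mod_cast hp
  unfold Sys.gam Sys.base
  have h1 := S.s_lt
  have h2 := S.tau_le_s
  have h3 := S.del_le
  have h4 := S.tau_pos
  norm_num at h1
  have h5 : S.tau ≤ 1 / 1000000 := by
    have : S.s / 10 ^ 6 ≤ S.s := by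
      rw [div_le_iff₀ (by positivity)]
      nlinarith [S.s_pos]
    linarith
  have h6 : (p : ℝ) ^ (S.s - 1 + 6 * S.tau) =
      (p : ℝ) ^ (-(1/2 + S.del)) * (p : ℝ) ^ (S.s - 1 + 6 * S.tau + (1/2 + S.del)) := by
    rw [← Real.rpow_add hp0]
    congr 1
    ring
  rw [h6]
  apply mul_le_mul_of_nonneg_left _ (by positivity)
  calc (p : ℝ) ^ (S.s - 1 + 6 * S.tau + (1/2 + S.del)) ≤ (p : ℝ) ^ (-(2/5) : ℝ) :=
        Real.rpow_le_rpow_of_exponent_le hp1 (by linarith)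
    _ ≤ ((2 : ℝ) ^ (20 : ℝ)) ^ (-(2/5) : ℝ) :=
        Real.rpow_le_rpow_of_nonpos (by positivity) hp2 (by norm_num)
    _ = (2 : ℝ) ^ (-(8 : ℝ)) := by
        rw [← Real.rpow_mul (by norm_num)]
        norm_num
    _ ≤ 1 / 20 := by
        rw [Real.rpow_neg (by norm_num), show (8 : ℝ) = ((8 : ℕ) : ℝ) by norm_num,
          Real.rpow_natCast]
        norm_num

theorem W_m_le {k0 : ℕ} {R : Set ℕ} (hR : S.Good k0 R)
    (hW : ∀ p : ℕ, p.Prime → 0 ≤ S.Wp k0 R p ∧ S.Wp k0 R p ≤ S.Fh k0 R p)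
    {k' j' : ℕ} (hk : S.K ≤ k') (hk' : 100 ≤ k') (hj : j' ∈ S.badc k') {x : ℕ × ℕ}
    (hx : x ∈ S.act R k' j') : S.W k0 R x.2 ≤ 2 * S.base x.2 := by
  rw [S.mem_act] at hx
  obtain ⟨hx, hxR⟩ := hx
  obtain ⟨h1, h2, h3, h4, h5, h6, h7, -, -⟩ := S.cand_facts hk hj hx
  have hm0 : x.2 ≠ 0 := by omega
  have hge : ∀ p : ℕ, p.Prime → p ∣ x.2 → (2 : ℝ) ^ ((k' : ℝ) / 5) ≤ p := fun p hp hpm =>
    (cand_prime_ge S hk hj hx hp (hpm.mul_left _)).2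
  have hge2 : ∀ p : ℕ, p.Prime → p ∣ x.2 → 2 ^ 20 ≤ p := by
    intro p hp hpm
    have h8 := hge p hp hpm
    have h9 : (2 : ℝ) ^ (20 : ℝ) ≤ p := by
      refine le_trans (Real.rpow_le_rpow_of_exponent_le (by norm_num) ?_) h8
      have : (100 : ℝ) ≤ k' := by exact_mod_cast hk'
      linarith
    rw [show (20 : ℝ) = ((20 : ℕ) : ℝ) by norm_num, Real.rpow_natCast] at h9
    exact_mod_cast h9
  have hlen : (x.2.primeFactorsList.length : ℝ) ≤ 5 * (k' + 1) / k' := by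
    refine Sys.rough_omega_le (k0 := k') (k := k') (by omega) hm0 hge ?_
    refine lt_of_le_of_lt ?_ h7
    exact Nat.le_mul_of_pos_left _ h1.pos
  have hlen2 : x.2.primeFactorsList.length ≤ 10 := by
    have hk'R : (100 : ℝ) ≤ k' := by exact_mod_cast hk'
    have h8 : (5 : ℝ) * (k' + 1) / k' ≤ 10 := by
      rw [div_le_iff₀ (by linarith)]
      linarith
    exact_mod_cast hlen.trans h8
  have hFh : ∀ p : ℕ, p.Prime → p ∣ x.2 → S.Wp k0 R p ≤ S.base p * (21 / 20) := by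
    intro p hp hpm
    have hpR : p ∈ R := hxR p hp hpm
    refine (hW p hp).2.trans ?_
    have h8 : ¬ ((p : ℝ) < (2 : ℝ) ^ ((k0 : ℝ) / 5)) := not_lt.mpr (hR.prime p hpR).2
    unfold Sys.Fh Sys.bR
    rw [if_neg h8, if_pos hpR]
    have := gam_le S (hge2 p hp hpm)
    linarith
  unfold Sys.W
  have hmono : CM (S.Wp k0 R) x.2 ≤ CM (fun p => S.base p * (21 / 20)) x.2 :=
    CM_mono (fun p hp _ => (hW p hp).1) hFh
  refine hmono.trans ?_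
  rw [CM_mul_fun S.base (fun _ => 21 / 20), S.CM_base hm0, CM_const]
  have h9 : ((21 : ℝ) / 20) ^ x.2.primeFactorsList.length ≤ (21 / 20) ^ 10 :=
    pow_le_pow_right₀ (by norm_num) hlen2
  have h10 : ((21 : ℝ) / 20) ^ 10 ≤ 2 := by norm_num
  have h11 := S.base_nonneg x.2
  nlinarith

theorem W_zero {k0 : ℕ} {R : Set ℕ}
    (hW : ∀ p : ℕ, p.Prime → 0 ≤ S.Wp k0 R p ∧ S.Wp k0 R p ≤ S.Fh k0 R p) {l : ℕ} (hl : 2 ≤ l)
    (hlt : (l : ℝ) < (2 : ℝ) ^ ((k0 : ℝ) / 5)) : S.W k0 R l = 0 := by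
  obtain ⟨p, hp, hpl⟩ := Nat.exists_prime_and_dvd (show l ≠ 1 by omega)
  have hple : p ≤ l := Nat.le_of_dvd (by omega) hpl
  have h1 : S.Fh k0 R p = 0 := by
    unfold Sys.Fh
    rw [if_pos]
    refine lt_of_le_of_lt ?_ hlt
    exact_mod_cast hple
  have h2 : S.Wp k0 R p = 0 := le_antisymm (h1 ▸ (hW p hp).2) (hW p hp).1
  exact CM_eq_zero (by omega) hp hpl h2

end Pool.Agent.Helper15.KS.H3
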