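import Pool.Agent.Helper15.KS.H3b

/-!
# Project KS (MP_768c9c_nt): Prop `H3`, the bound for one cofactor
-/

set_option autoImplicit false
open scoped Classical

namespace Pool.Agent.Helper15.KS.H3

open Pool.Agent.Helper16.KS

variable (S : Sys)

theorem G_step {k k' l h : ℕ} (hk0 : 0 < k') (hl : 32 ≤ l)
    (hh : (h : ℝ) ≤ 2 * ((2 : ℝ) ^ ec S.d k / l)) (hk : k ≤ 2 * k') (hk1 : 0 < k)
    (hs : (2 : ℝ) ^ ((S.s - 1) * k') ≤ 2 * ((2 : ℝ) ^ ((S.s - 1) * k) * (l : ℝ) ^ (1 - S.s))) :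
    S.G k' * ((h : ℝ) / 2 ^ ec S.d k') ≤ 64 * (S.G k * (l : ℝ) ^ (-S.s)) := by
  have hl0 : (0 : ℝ) < l := by exact_mod_cast (by omega : 0 < l)
  have hk0R : (0 : ℝ) < k' := by exact_mod_cast hk0
  have hk1R : (0 : ℝ) < k := by exact_mod_cast hk1
  have h4 : 1 / (k' : ℝ) ^ 4 ≤ 16 / (k : ℝ) ^ 4 := by
    rw [div_le_div_iff₀ (by positivity) (by positivity)]
    have h5 : (k : ℝ) ≤ 2 * k' := by exact_mod_cast hk
    calc 1 * (k : ℝ) ^ 4 = (k : ℝ) ^ 4 := one_mul _
      _ ≤ (2 * (k' : ℝ)) ^ 4 := pow_le_pow_left₀ hk1R.le h5 4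
      _ = 16 * (k' : ℝ) ^ 4 := by ring
  have e1 : S.G k' * ((h : ℝ) / 2 ^ ec S.d k') =
      h * (2 : ℝ) ^ ((S.s - 1) * k') * (1 / (k' : ℝ) ^ 4) := by
    unfold Sys.G
    field_simp
  have e2 : (l : ℝ) ^ (1 - S.s) = l * (l : ℝ) ^ (-S.s) := by
    rw [show 1 - S.s = 1 + -S.s by ring, Real.rpow_add hl0, Real.rpow_one]
  rw [e1]
  calc (h : ℝ) * (2 : ℝ) ^ ((S.s - 1) * k') * (1 / (k' : ℝ) ^ 4)
      ≤ (2 * ((2 : ℝ) ^ ec S.d k / l)) *
          (2 * ((2 : ℝ) ^ ((S.s - 1) * k) * (l : ℝ) ^ (1 - S.s))) * (16 / (k : ℝ) ^ 4) := by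
        apply mul_le_mul (mul_le_mul hh hs (by positivity) (by positivity)) h4 (by positivity)
          (by positivity)
    _ = 64 * (S.G k * (l : ℝ) ^ (-S.s)) := by
        rw [e2]
        unfold Sys.G
        field_simp
        ring

/-- two cells at most meet a short window -/
theorem cells_two {L w0 h j' y M : ℕ} (hh : h ≤ L) (h1 : M + j' * L ≤ y)
    (h2 : y < M + (j' + 1) * L) (h3 : w0 ≤ y) (h4 : y < w0 + h) :
    j' = (w0 - M) / L ∨ j' = (w0 - M) / L + 1 := by
  have hL : 0 < L := by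
    rcases Nat.eq_zero_or_pos L with h | h
    · subst h; omega
    · exact h
  have h5 : (w0 - M) / L ≤ j' := by
    have h6 : (w0 - M) / L < j' + 1 := by
      rw [Nat.div_lt_iff_lt_mul hL]
      omega
    omega
  have h7 : j' < (w0 - M) / L + 2 := by
    by_contra hcon
    rw [not_lt] at hcon
    have h8 : ((w0 - M) / L + 2) * L ≤ j' * L := Nat.mul_le_mul_right _ hcon
    have h9 := Nat.lt_div_mul_add hL (a := w0 - M)
    rw [add_mul] at h8
    omega
  omega

theorem cell_part {k0 : ℕ} {R : Set ℕ} (hR : S.Good k0 R) {k' j' : ℕ} (hk' : k0 ≤ k')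
    (hj' : j' ∈ S.badc k') {l w0 h k : ℕ} (hl : 32 ≤ l) (hk1 : 0 < k) (hk0 : 0 < k')
    (hhL : h ≤ 2 ^ ec S.d k')
    (hh38 : (2 : ℝ) ^ (0.38 * (k' : ℝ)) ≤ h)
    (hh498 : (2 : ℝ) ^ (0.498 * (k' : ℝ)) ≤ h ∨ (k' : ℝ) ≤ 500 * Real.log l)
    (hh : (h : ℝ) ≤ 2 * ((2 : ℝ) ^ ec S.d k / l)) (hk : k ≤ 2 * k')
    (hs : (2 : ℝ) ^ ((S.s - 1) * k') ≤ 2 * ((2 : ℝ) ^ ((S.s - 1) * k) * (l : ℝ) ^ (1 - S.s))) :
    4 * S.G k' / S.NN R k' j' *
      ∑ y ∈ (S.act R k' j').filter (fun y => w0 ≤ y.1 * y.2 ∧ y.1 * y.2 < w0 + h), 1 / S.pr y.2 ≤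
    512000 * S.C1 * (S.G k * ((l : ℝ) ^ (-S.s) * (1 + Real.log l))) := by
  have hC1 : 0 < S.C1 := by linarith [S.C1_ge]
  have hlog : 0 ≤ Real.log (l : ℝ) := Real.log_natCast_nonneg l
  have hG := S.G_nonneg k'
  have hGk := S.G_nonneg k
  have hcard : (0 : ℝ) ≤ ((S.Cand k' j').card : ℝ) := Nat.cast_nonneg _
  have hl0 : (0 : ℝ) < l := by exact_mod_cast (by omega : 0 < l)
  have hhr : 0 ≤ (h : ℝ) / 2 ^ ec S.d k' := by positivity
  -- the window
  have hwin : ∑ y ∈ (S.act R k' j').filter (fun y => w0 ≤ y.1 * y.2 ∧ y.1 * y.2 < w0 + h),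
      1 / S.pr y.2 ≤
      2 * (S.C1 * (500 * (1 + Real.log l)) * (h / 2 ^ ec S.d k') * (S.Cand k' j').card) := by
    by_cases hc : (2 : ℝ) ^ (0.498 * (k' : ℝ)) ≤ h
    · refine (hR.win1 k' hk' j' hj' w0 h hc hhL).trans ?_
      have h1 : S.C1 * 1 ≤ S.C1 * (500 * (1 + Real.log l)) :=
        mul_le_mul_of_nonneg_left (by linarith) hC1.le
      rw [mul_one] at h1
      have h2 := mul_le_mul_of_nonneg_right (mul_le_mul_of_nonneg_right h1 hhr) hcard
      linarith
    · have hk500 : (k' : ℝ) ≤ 500 * Real.log l := by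
        rcases hh498 with h1 | h1
        · exact absurd h1 hc
        · exact h1
      refine (hR.win2 k' hk' j' hj' w0 h hh38 hhL).trans ?_
      have h1 : S.C1 * k' ≤ S.C1 * (500 * (1 + Real.log l)) :=
        mul_le_mul_of_nonneg_left (by linarith) hC1.le
      have h2 := mul_le_mul_of_nonneg_right (mul_le_mul_of_nonneg_right h1 hhr) hcard
      linarith
  have hlow := hR.lower k' hk' j' hj'
  have hstep := G_step S hk0 hl hh hk hk1 hs
  have hRHS : 0 ≤ 512000 * S.C1 * (S.G k * ((l : ℝ) ^ (-S.s) * (1 + Real.log l))) := by positivity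
  rcases eq_or_lt_of_le (S.NN_nonneg R k' j') with hN | hN
  · rw [← hN, div_zero, zero_mul]
    exact hRHS
  · rw [div_mul_eq_mul_div, div_le_iff₀ hN]
    have h1 : ((S.Cand k' j').card : ℝ) ≤ 2 * S.NN R k' j' := by linarith
    have h2 : S.C1 * (500 * (1 + Real.log l)) * (h / 2 ^ ec S.d k') * (S.Cand k' j').card ≤
        S.C1 * (500 * (1 + Real.log l)) * (h / 2 ^ ec S.d k') * (2 * S.NN R k' j') :=
      mul_le_mul_of_nonneg_left h1 (by positivity)
    calc 4 * S.G k' * ∑ y ∈ (S.act R k' j').filter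
          (fun y => w0 ≤ y.1 * y.2 ∧ y.1 * y.2 < w0 + h), 1 / S.pr y.2
        ≤ 4 * S.G k' * (2 * (S.C1 * (500 * (1 + Real.log l)) * (h / 2 ^ ec S.d k') *
            (2 * S.NN R k' j'))) := by
          apply mul_le_mul_of_nonneg_left _ (by positivity)
          linarith
      _ = 8000 * S.C1 * (1 + Real.log l) * S.NN R k' j' *
            (S.G k' * ((h : ℝ) / 2 ^ ec S.d k')) := by ring
      _ ≤ 8000 * S.C1 * (1 + Real.log l) * S.NN R k' j' *
            (64 * (S.G k * (l : ℝ) ^ (-S.s))) := by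
          apply mul_le_mul_of_nonneg_left hstep (by positivity)
      _ = _ := by ring

theorem inner_le {k0 : ℕ} {R : Set ℕ} (hR : S.Good k0 R) (hk0 : 6010 ≤ k0) (hK : S.K ≤ k0)
    {k j k' l : ℕ} (hj : j < nc S.d k) (hk' : k0 ≤ k') (hl : 32 ≤ l) :
    ∑ j' ∈ S.badc k', ∑ x ∈ S.act R k' j',
      (if (x.1 * x.2 * l ∈ cell S.d k j ∧
          (l : ℝ) < (2 : ℝ) ^ ((S.u (S.cls k' j') + S.c) * k'))
        then 4 * S.G k' / S.NN R k' j' * (1 / S.pr x.2) else 0) ≤
    (if (k' + Nat.log 2 l = k ∨ k' + Nat.log 2 l + 1 = k) then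
      1024000 * S.C1 * (S.G k * ((l : ℝ) ^ (-S.s) * (1 + Real.log l))) else 0) := by
  have hl0 : 0 < l := by omega
  by_cases hit : k' + Nat.log 2 l = k ∨ k' + Nat.log 2 l + 1 = k
  · rw [if_pos hit]
    have hC1 : 0 < S.C1 := by linarith [S.C1_ge]
    have hlog : 0 ≤ Real.log (l : ℝ) := Real.log_natCast_nonneg l
    have hGk := S.G_nonneg k
    have hl0R : (0 : ℝ) < l := by exact_mod_cast hl0
    set B : ℝ := 512000 * S.C1 * (S.G k * ((l : ℝ) ^ (-S.s) * (1 + Real.log l))) with hB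
    have hB0 : 0 ≤ B := by positivity
    set a : ℕ := 2 ^ k + j * 2 ^ ec S.d k with ha
    set b : ℕ := 2 ^ k + (j + 1) * 2 ^ ec S.d k with hb
    set w0 : ℕ := wl l a with hw0
    set h : ℕ := wl l b - w0 with hh
    have hab : a ≤ b := by
      rw [ha, hb]
      have : j * 2 ^ ec S.d k ≤ (j + 1) * 2 ^ ec S.d k := Nat.mul_le_mul_right _ (by omega)
      omega
    have hw01 : w0 ≤ wl l b := wl_mono hab
    have hwh : w0 + h = wl l b := by omega
    have hmem : ∀ y : ℕ, y * l ∈ cell S.d k j ↔ w0 ≤ y ∧ y < w0 + h := by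
      intro y
      rw [mem_cell, hwh, hw0, wl_le_iff hl0, lt_wl_iff hl0]
    have hcast : (b : ℝ) - a = 2 ^ ec S.d k := by
      rw [ha, hb]
      push_cast
      ring
    have hhr : (h : ℝ) = (wl l b : ℝ) - w0 := by
      rw [hh, Nat.cast_sub hw01]
    have hh1 : (h : ℝ) < (2 : ℝ) ^ ec S.d k / l + 1 := by
      have h1 := wl_ge (l := l) (a := a) hl0
      have h2 := wl_lt (l := l) (a := b) hl0
      have h3 : (b : ℝ) / l - a / l = (2 : ℝ) ^ ec S.d k / l := by rw [← sub_div, hcast]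
      rw [hhr]
      linarith
    have hh2 : (2 : ℝ) ^ ec S.d k / l - 1 < (h : ℝ) := by
      have h1 := wl_lt (l := l) (a := a) hl0
      have h2 := wl_ge (l := l) (a := b) hl0
      have h3 : (b : ℝ) / l - a / l = (2 : ℝ) ^ ec S.d k / l := by rw [← sub_div, hcast]
      rw [hhr]
      linarith
    set i0 : ℕ := (w0 - 2 ^ k') / 2 ^ ec S.d k' with hi0
    have hterm : ∀ j' ∈ S.badc k', ∑ x ∈ S.act R k' j',
        (if (x.1 * x.2 * l ∈ cell S.d k j ∧
            (l : ℝ) < (2 : ℝ) ^ ((S.u (S.cls k' j') + S.c) * k'))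
          then 4 * S.G k' / S.NN R k' j' * (1 / S.pr x.2) else 0) ≤
        if (j' = i0 ∨ j' = i0 + 1) then B else 0 := by
      intro j' hj'
      by_cases hbd : (l : ℝ) < (2 : ℝ) ^ ((S.u (S.cls k' j') + S.c) * k')
      · have hlt : (l : ℝ) < (2 : ℝ) ^ (0.226 * (k' : ℝ)) := by
          refine hbd.trans_le (Real.rpow_le_rpow_of_exponent_le (by norm_num) ?_)
          have h1 := S.u_le (S.cls k' j')
          have h2 := S.c_le'
          apply mul_le_mul_of_nonneg_right _ (Nat.cast_nonneg _)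
          norm_num at h1 h2 ⊢
          linarith
        obtain ⟨n1, n2, n3, n4, n5⟩ := numeric S (by omega) hl hlt hit
        have hone : (1 : ℝ) ≤ (2 : ℝ) ^ (0.38 * (k' : ℝ)) :=
          Real.one_le_rpow (by norm_num) (by positivity)
        have hone2 : (1 : ℝ) ≤ (2 : ℝ) ^ (0.498 * (k' : ℝ)) :=
          Real.one_le_rpow (by norm_num) (by positivity)
        rw [Real.rpow_add (by norm_num), Real.rpow_one] at n1
        have hhL : h ≤ 2 ^ ec S.d k' := by
          have h1 : (h : ℝ) < ((2 ^ ec S.d k' : ℕ) : ℝ) := by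
            push_cast
            linarith
          exact_mod_cast h1.le
        by_cases hj2 : j' = i0 ∨ j' = i0 + 1
        · rw [if_pos hj2]
          have hcell := cell_part S hR hk' hj' (l := l) (w0 := w0) (h := h) (k := k) hl
            (by omega) (by omega) hhL (by linarith)
            (by
              rcases n3 with h1 | h1
              · left
                rw [Real.rpow_add (by norm_num), Real.rpow_one] at h1
                linarith
              · exact Or.inr h1) (by linarith) n4 n5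
          refine le_trans (le_of_eq ?_) hcell
          rw [Finset.mul_sum, Finset.sum_filter]
          refine Finset.sum_congr rfl fun x hx => ?_
          have hiff : (x.1 * x.2 * l ∈ cell S.d k j ∧
            (l : ℝ) < (2 : ℝ) ^ ((S.u (S.cls k' j') + S.c) * k')) ↔
            (w0 ≤ x.1 * x.2 ∧ x.1 * x.2 < w0 + h) := by
            rw [hmem]
            exact ⟨fun h1 => h1.1, fun h1 => ⟨h1, hbd⟩⟩
          by_cases hq : w0 ≤ x.1 * x.2 ∧ x.1 * x.2 < w0 + h
          · rw [if_pos (hiff.2 hq), if_pos hq]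
          · rw [if_neg (fun h1 => hq (hiff.1 h1)), if_neg hq]
        · rw [if_neg hj2]
          apply le_of_eq
          apply Finset.sum_eq_zero
          intro x hx
          rw [if_neg]
          rintro ⟨h1, -⟩
          rw [hmem] at h1
          rw [S.mem_act] at hx
          obtain ⟨-, -, -, -, h5, -, -, -, -⟩ := S.cand_facts (hK.trans hk') hj' hx.1
          rw [mem_cell] at h5
          exact hj2 (cells_two hhL h5.1 h5.2 h1.1 h1.2)
      · have hz : ∑ x ∈ S.act R k' j',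
          (if (x.1 * x.2 * l ∈ cell S.d k j ∧
            (l : ℝ) < (2 : ℝ) ^ ((S.u (S.cls k' j') + S.c) * k'))
            then 4 * S.G k' / S.NN R k' j' * (1 / S.pr x.2) else 0) = 0 := by
          apply Finset.sum_eq_zero
          intro x _
          rw [if_neg (fun h1 => hbd h1.2)]
        rw [hz]
        split_ifs
        · exact hB0
        · exact le_rfl
    refine (Finset.sum_le_sum hterm).trans ?_
    rw [← Finset.sum_filter, Finset.sum_const, nsmul_eq_mul]
    have hcard : ((S.badc k').filter (fun j' => j' = i0 ∨ j' = i0 + 1)).card ≤ 2 := by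
      refine (Finset.card_le_card (t := {i0, i0 + 1}) ?_).trans Finset.card_le_two
      intro j' hj'
      rw [Finset.mem_filter] at hj'
      rw [Finset.mem_insert, Finset.mem_singleton]
      exact hj'.2
    have hcard' : (((S.badc k').filter (fun j' => j' = i0 ∨ j' = i0 + 1)).card : ℝ) ≤ 2 := by
      exact_mod_cast hcard
    calc _ ≤ 2 * B := mul_le_mul_of_nonneg_right hcard' hB0
      _ = _ := by rw [hB]; ring
  · rw [if_neg hit]
    apply le_of_eq
    apply Finset.sum_eq_zero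
    intro j' hj'
    apply Finset.sum_eq_zero
    intro x hx
    rw [if_neg]
    rintro ⟨h1, -⟩
    apply hit
    rw [S.mem_act] at hx
    obtain ⟨-, -, -, -, -, h6, h7, -, -⟩ := S.cand_facts (hK.trans hk') hj' hx.1
    have h8 := cell_ge h1
    have h9 := cell_lt S.d_pos hj h1
    have hlog1 : 2 ^ Nat.log 2 l ≤ l := Nat.pow_log_le_self 2 hl0.ne'
    have hlog2 : l < 2 ^ (Nat.log 2 l + 1) := Nat.lt_pow_succ_log_self (by norm_num) l
    have h10 : 2 ^ (k' + Nat.log 2 l) < 2 ^ (k + 1) := by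
      rw [pow_add]
      exact lt_of_le_of_lt (Nat.mul_le_mul h6 hlog1) h9
    have h11 : 2 ^ k < 2 ^ (k' + 1 + (Nat.log 2 l + 1)) := by
      rw [pow_add]
      exact lt_of_le_of_lt h8 (Nat.mul_lt_mul'' h7 hlog2)
    have h12 := (Nat.pow_lt_pow_iff_right (by norm_num : 1 < 2)).1 h10
    have h13 := (Nat.pow_lt_pow_iff_right (by norm_num : 1 < 2)).1 h11
    omega

end Pool.Agent.Helper15.KS.H3
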